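import Pool.Agent.V1167.GL.Lin
import Mathlib.NumberTheory.LSeries.Deriv

/-!
# Gaussian sums of the coefficients of an ordinary Dirichlet series
-/

set_option autoImplicit false

open MeasureTheory Filter Topology Set Complex

namespace Pool.Agent.V1167.GL

open Pool.Agent.V11291.GS

/-- the exponents -/
noncomputable def xn (n : ℕ) : ℝ := Real.log ((n + 2 : ℕ) : ℝ)

/-- the coefficients -/
def cn (a : ℕ → ℂ) (n : ℕ) : ℂ := a (n + 2)

/-- the Gaussian sum of the coefficients -/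
noncomputable def gs (a : ℕ → ℂ) (A T : ℝ) : ℂ :=
  ((Real.sqrt (4 * Real.pi * T))⁻¹ : ℝ) * ∑' n : ℕ, a n *
    ((Real.log n * (n : ℝ) ^ A * Real.exp (-(Real.log n ^ 2 / (4 * T))) : ℝ) : ℂ)

lemma exp_log2 (n : ℕ) (s : ℂ) :
    exp (-(s * xn n)) = (((n + 2 : ℕ) : ℂ) ^ s)⁻¹ := by
  have h : ((n + 2 : ℕ) : ℂ) ≠ 0 := by
    rw [Nat.cast_ne_zero]
    omega
  unfold xn
  rw [Complex.exp_neg, Complex.cpow_def_of_ne_zero h, Complex.natCast_log, mul_comm]

lemma term_two (a : ℕ → ℂ) (s : ℂ) (n : ℕ) :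
    LSeries.term a s (n + 2) = cn a n * exp (-(s * xn n)) := by
  rw [LSeries.term_of_ne_zero (Nat.succ_ne_zero _), exp_log2]
  rfl

lemma gd_of {a : ℕ → ℂ} {σ : ℝ} (hσ : 0 < σ) (ha : LSeriesSummable a σ) :
    GD xn (cn a) (Real.log 2) σ where
  δ0 := Real.log_pos (by norm_num)
  σ0 := hσ
  ge := fun n => by
    unfold xn
    refine Real.log_le_log (by norm_num) ?_
    push_cast
    have : (0 : ℝ) ≤ n := n.cast_nonneg
    linarith
  sum := by
    have h1 : Summable fun n => ‖LSeries.term a σ n‖ := ha.norm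
    have h2 := (summable_nat_add_iff 2).2 h1
    refine h2.congr fun n => ?_
    rw [term_two, norm_mul, Complex.norm_exp]
    congr 2
    simp

lemma ls_eq {a : ℕ → ℂ} {s : ℂ} (ha : LSeriesSummable a s) :
    LSeries a s = a 1 + ll xn (cn a) s := by
  unfold LSeries
  have h := ha.sum_add_tsum_nat_add 2
  rw [← h, Finset.sum_range_succ, Finset.sum_range_one, LSeries.term_zero,
    LSeries.term_of_ne_zero one_ne_zero]
  unfold ll
  simp only [term_two]
  simp

lemma gs_eq (a : ℕ → ℂ) (A T : ℝ) : gs a A T = G xn (cA xn (cn a) A) T := by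
  unfold gs G
  rw [← tsum_mul_left]
  have hinj : Function.Injective fun n : ℕ => n + 2 := fun m n h => by
    simpa using h
  have hsup : Function.support (fun n : ℕ => (((Real.sqrt (4 * Real.pi * T))⁻¹ : ℝ) : ℂ) * (a n *
      ((Real.log n * (n : ℝ) ^ A * Real.exp (-(Real.log n ^ 2 / (4 * T))) : ℝ) : ℂ))) ⊆
      Set.range fun n : ℕ => n + 2 := by
    intro n hn
    rcases n with _ | _ | n
    · exfalso
      apply hn
      simp
    · exfalso
      apply hn
      simp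
    · exact ⟨n, rfl⟩
  rw [← hinj.tsum_eq hsup]
  refine tsum_congr fun n => ?_
  have h0 : (0 : ℝ) < ((n + 2 : ℕ) : ℝ) := by exact_mod_cast Nat.succ_pos _
  have h1 : ((n + 2 : ℕ) : ℝ) ^ A = Real.exp (A * xn n) := by
    rw [Real.rpow_def_of_pos h0]
    congr 1
    unfold xn
    ring
  unfold cA kr cn
  rw [h1]
  unfold xn
  push_cast
  ring

/-- the series is holomorphic to the right of the abscissa -/
lemma ls_diff {a : ℕ → ℂ} {σa : ℝ} (ha : ∀ σ : ℝ, σa < σ → LSeriesSummable a σ) {s : ℂ}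
    (hs : σa < s.re) : DifferentiableAt ℂ (LSeries a) s := by
  have h1 : LSeries.abscissaOfAbsConv a ≤ σa := by
    refine LSeries.abscissaOfAbsConv_le_of_forall_lt_LSeriesSummable fun y hy => ha y hy
  have h2 : LSeries.abscissaOfAbsConv a < s.re := lt_of_le_of_lt h1 (by exact_mod_cast hs)
  exact (LSeries_hasDerivAt h2).differentiableAt

/-- **the criterion for regions** -/
theorem dir_crit {a : ℕ → ℂ} {σa : ℝ} (hσa : 0 ≤ σa)
    (ha : ∀ σ : ℝ, σa < σ → LSeriesSummable a σ) {A θ : ℝ} (hA : 0 ≤ A) (hθ : 0 ≤ θ) :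
    (∃ F : ℂ → ℂ, (∀ s : ℂ, s ∈ Hyp A θ ∨ σa < s.re → DifferentiableAt ℂ F s) ∧
      ∀ s : ℂ, σa < s.re → F s = LSeries a s) ↔ Sub (gs a A) θ := by
  classical
  set σ : ℝ := σa + 1 with hσ
  have hs1 : LSeriesSummable a σ := ha σ (by linarith)
  have D := gd_of (a := a) (σ := σ) (by linarith) hs1
  have hsum : ∀ s : ℂ, σ < s.re → LSeriesSummable a s := fun s hs =>
    hs1.of_re_le_re (by simpa using hs.le)
  have hsub : Sub (gs a A) θ ↔ Sub (G xn (cA xn (cn a) A)) θ := by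
    unfold Sub
    simp only [gs_eq]
  rw [hsub, ← crit D hA hθ]
  constructor
  · rintro ⟨F, h1, h2⟩
    refine ⟨fun s => F s - a 1, fun s hs => ?_, fun s hs => ?_⟩
    · exact (h1 s (hs.imp id fun h => by linarith)).sub_const _
    · simp only
      rw [h2 s (by linarith), ls_eq (hsum s hs)]
      ring
  · rintro ⟨F, h1, h2⟩
    have ho : IsOpen {s : ℂ | σa < s.re} := isOpen_lt continuous_const Complex.continuous_re
    have hid : ∀ s ∈ Hyp A θ ∩ {s : ℂ | σa < s.re}, F s + a 1 = LSeries a s := by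
      refine ident ((Hyp_open A θ).inter ho) ((Hyp_convex A θ).inter (convex_halfSpace_re_gt _))
        (R := max σ (θ + 1)) (fun s hs => (h1 s (Or.inl hs.1)).add_const _)
        (fun s hs => ls_diff ha hs.2) fun r hr => ?_
      have hr1 : σ < r := (le_max_left _ _).trans_lt hr
      have hr2 : θ + 1 < r := (le_max_right _ _).trans_lt hr
      have hr3 : σ < ((r : ℝ) : ℂ).re := by simpa using hr1
      refine ⟨⟨?_, ?_⟩, ?_⟩
      · change ((r : ℝ) : ℂ) + (A : ℂ) ∈ W θ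
        rw [← Complex.ofReal_add]
        exact W_real hθ (by linarith) (by nlinarith)
      · change σa < ((r : ℝ) : ℂ).re
        linarith
      · rw [h2 _ hr3, ls_eq (hsum _ hr3)]
        ring
    refine ⟨fun s => if s ∈ Hyp A θ then F s + a 1 else LSeries a s, fun s hs => ?_,
      fun s hs => ?_⟩
    · by_cases hs1 : s ∈ Hyp A θ
      · refine ((h1 s (Or.inl hs1)).add_const (a 1)).congr_of_eventuallyEq ?_
        filter_upwards [(Hyp_open A θ).mem_nhds hs1] with z hz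
        rw [if_pos hz]
      · have hs2 : σa < s.re := hs.resolve_left hs1
        refine (ls_diff ha hs2).congr_of_eventuallyEq ?_
        filter_upwards [ho.mem_nhds hs2] with z hz
        by_cases hz1 : z ∈ Hyp A θ
        · rw [if_pos hz1]
          exact hid z ⟨hz1, hz⟩
        · rw [if_neg hz1]
    · simp only
      by_cases hs1 : s ∈ Hyp A θ
      · rw [if_pos hs1]
        exact hid s ⟨hs1, hs⟩
      · rw [if_neg hs1]

/-- **the criterion for the plane** -/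
theorem dir_plane {a : ℕ → ℂ} {σa : ℝ} (hσa : 0 ≤ σa)
    (ha : ∀ σ : ℝ, σa < σ → LSeriesSummable a σ)
    (h : ∀ A₀ : ℝ, ∃ A : ℝ, A₀ ≤ A ∧ 0 ≤ A ∧ Sub (gs a A) 0) :
    ∃ F : ℂ → ℂ, Differentiable ℂ F ∧ ∀ s : ℂ, σa < s.re → F s = LSeries a s := by
  set σ : ℝ := σa + 1 with hσ
  have hs1 : LSeriesSummable a σ := ha σ (by linarith)
  have D := gd_of (a := a) (σ := σ) (by linarith) hs1
  have hsum : ∀ s : ℂ, σ < s.re → LSeriesSummable a s := fun s hs =>
    hs1.of_re_le_re (by simpa using hs.le)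
  obtain ⟨F, h1, h2⟩ := plane D fun A₀ => by
    obtain ⟨A, e1, e2, e3⟩ := h A₀
    refine ⟨A, e1, e2, ?_⟩
    unfold Sub at e3 ⊢
    simpa only [gs_eq] using e3
  refine ⟨fun s => F s + a 1, h1.add_const _, fun s hs => ?_⟩
  have ho : IsOpen {s : ℂ | σa < s.re} := isOpen_lt continuous_const Complex.continuous_re
  refine ident ho (convex_halfSpace_re_gt _) (R := σ) (fun s _ => (h1 s).add_const _)
    (fun s hs => ls_diff ha hs) (fun r hr => ?_) s hs
  have hr3 : σ < ((r : ℝ) : ℂ).re := by simpa using hr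
  refine ⟨?_, ?_⟩
  · change σa < ((r : ℝ) : ℂ).re
    linarith
  · rw [h2 _ hr3, ls_eq (hsum _ hr3)]
    ring

/-- **entire if and only if all Gaussian sums grow subexponentially** -/
theorem dir_entire {a : ℕ → ℂ} {σa : ℝ} (hσa : 0 ≤ σa)
    (ha : ∀ σ : ℝ, σa < σ → LSeriesSummable a σ) :
    ((∃ F : ℂ → ℂ, Differentiable ℂ F ∧ ∀ s : ℂ, σa < s.re → F s = LSeries a s) ↔
      ∀ A : ℝ, 0 ≤ A → Sub (gs a A) 0) ∧
    ((∃ F : ℂ → ℂ, Differentiable ℂ F ∧ ∀ s : ℂ, σa < s.re → F s = LSeries a s) ↔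
      ∀ A₀ : ℝ, ∃ A : ℝ, A₀ ≤ A ∧ 0 ≤ A ∧ Sub (gs a A) 0) := by
  have h1 : (∃ F : ℂ → ℂ, Differentiable ℂ F ∧ ∀ s : ℂ, σa < s.re → F s = LSeries a s) →
      ∀ A : ℝ, 0 ≤ A → Sub (gs a A) 0 := by
    rintro ⟨F, h1, h2⟩ A hA
    exact (dir_crit hσa ha hA le_rfl).1 ⟨F, fun s _ => h1 s, h2⟩
  have h2 : (∀ A : ℝ, 0 ≤ A → Sub (gs a A) 0) →
      ∀ A₀ : ℝ, ∃ A : ℝ, A₀ ≤ A ∧ 0 ≤ A ∧ Sub (gs a A) 0 := fun h A₀ =>
    ⟨max A₀ 0, le_max_left _ _, le_max_right _ _, h _ (le_max_right _ _)⟩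
  exact ⟨⟨h1, fun h => dir_plane hσa ha (h2 h)⟩, ⟨fun h => h2 (h1 h), dir_plane hσa ha⟩⟩

end Pool.Agent.V1167.GL
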