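import Mathlib

/-!
# Euler products with complex parameters as Dirichlet series
-/

set_option autoImplicit false

open Filter Topology Set Complex

namespace Pool.Agent.V1167.GL

/-- the completely multiplicative function with the values `α p` -/
noncomputable def cm (α : ℕ → ℂ) (n : ℕ) : ℂ :=
  if n = 0 then 0 else n.factorization.prod fun p k => α p ^ k

lemma cm_zero (α : ℕ → ℂ) : cm α 0 = 0 := by simp [cm]

lemma cm_one (α : ℕ → ℂ) : cm α 1 = 1 := by simp [cm]

lemma cm_mul (α : ℕ → ℂ) (m n : ℕ) : cm α (m * n) = cm α m * cm α n := by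
  rcases eq_or_ne m 0 with rfl | hm
  · simp [cm]
  rcases eq_or_ne n 0 with rfl | hn
  · simp [cm]
  unfold cm
  rw [if_neg hm, if_neg hn, if_neg (mul_ne_zero hm hn), Nat.factorization_mul hm hn]
  exact Finsupp.prod_add_index' (fun p => pow_zero _) fun p a b => pow_add _ _ _

lemma cm_prime (α : ℕ → ℂ) {p : ℕ} (hp : p.Prime) : cm α p = α p := by
  unfold cm
  rw [if_neg hp.ne_zero, hp.factorization, 
    Finsupp.prod_single_index (h := fun p k => α p ^ k) (pow_zero _), pow_one]

lemma cm_norm {α : ℕ → ℂ} {c : ℝ} (h : ∀ p : ℕ, p.Prime → ‖α p‖ ≤ (p : ℝ) ^ c) (n : ℕ)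
    (hn : n ≠ 0) : ‖cm α n‖ ≤ (n : ℝ) ^ c := by
  induction n using induction_on_primes with
  | zero => exact absurd rfl hn
  | one => rw [cm_one]; simp
  | prime_mul p a hp ih =>
    have ha : a ≠ 0 := right_ne_zero_of_mul hn
    rw [cm_mul, norm_mul, cm_prime α hp, Nat.cast_mul,
      Real.mul_rpow (Nat.cast_nonneg _) (Nat.cast_nonneg _)]
    exact mul_le_mul (h p hp) (ih ha) (norm_nonneg _) (by positivity)

/-- the terms of the Dirichlet series -/
noncomputable def cmHom (α : ℕ → ℂ) {s : ℂ} (_ : s ≠ 0) : ℕ →*₀ ℂ where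
  toFun n := cm α n * (n : ℂ) ^ (-s)
  map_zero' := by simp [cm_zero]
  map_one' := by simp [cm_one]
  map_mul' m n := by
    rw [cm_mul, Nat.cast_mul, Complex.natCast_mul_natCast_cpow]
    ring

lemma cm_spec {α : ℕ → ℂ} {c : ℝ} (h : ∀ p : ℕ, p.Prime → ‖α p‖ ≤ (p : ℝ) ^ c) (hc : 0 ≤ c)
    {s : ℂ} (hs : 1 + c < s.re) : LSeriesSummable (cm α) s ∧
      HasProd (fun p : Nat.Primes => (1 - α p * ((p : ℕ) : ℂ) ^ (-s))⁻¹) (LSeries (cm α) s) := by
  have hs0 : s ≠ 0 := fun h0 => by
    rw [h0, Complex.zero_re] at hs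
    linarith
  have h1 : LSeriesSummable (cm α) s := by
    refine LSeriesSummable_of_le_const_mul_rpow (x := c + 1) (by linarith) ⟨1, fun n hn => ?_⟩
    rw [one_mul, add_sub_cancel_right]
    exact cm_norm h n hn
  refine ⟨h1, ?_⟩
  have ht : ∀ n, cmHom α hs0 n = LSeries.term (cm α) s n := by
    intro n
    change cm α n * (n : ℂ) ^ (-s) = _
    rcases eq_or_ne n 0 with rfl | hn
    · simp [cm_zero]
    · rw [LSeries.term_of_ne_zero hn, Complex.cpow_neg, div_eq_mul_inv]
  have h2 : Summable fun n => ‖cmHom α hs0 n‖ := by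
    simp only [ht]
    exact h1.norm
  have h3 := EulerProduct.eulerProduct_completely_multiplicative_hasProd h2
  have h4 : ∑' n, cmHom α hs0 n = LSeries (cm α) s := tsum_congr ht
  rw [h4] at h3
  refine h3.congr_fun fun p => ?_
  change _ = (1 - cm α p * ((p : ℕ) : ℂ) ^ (-s))⁻¹
  rw [cm_prime α p.2]

/-- as an arithmetic function -/
noncomputable def cmA (α : ℕ → ℂ) : ArithmeticFunction ℂ := ⟨cm α, cm_zero α⟩

/-- the Dirichlet coefficients of the Euler product with the parameters `α i p` -/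
noncomputable def dc {κ : Type*} (I : Finset κ) (α : κ → ℕ → ℂ) : ArithmeticFunction ℂ :=
  ∏ i ∈ I, cmA (α i)

lemma dc_spec {κ : Type*} (I : Finset κ) {α : κ → ℕ → ℂ} {c : ℝ} (hc : 0 ≤ c)
    (h : ∀ i, ∀ p : ℕ, p.Prime → ‖α i p‖ ≤ (p : ℝ) ^ c) {s : ℂ} (hs : 1 + c < s.re) :
    LSeriesSummable (fun n => dc I α n) s ∧
      HasProd (fun p : Nat.Primes => ∏ i ∈ I, (1 - α i p * ((p : ℕ) : ℂ) ^ (-s))⁻¹)
        (LSeries (fun n => dc I α n) s) := by
  classical
  induction I using Finset.induction_on with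
  | empty =>
    have h1 : (fun n => dc (∅ : Finset κ) α n) = LSeries.delta := by
      funext n
      unfold dc
      rw [Finset.prod_empty, ArithmeticFunction.one_apply]
      rfl
    rw [h1]
    constructor
    · unfold LSeriesSummable
      refine summable_of_ne_finset_zero (s := {1}) fun n hn => ?_
      rw [LSeries.term_delta, if_neg (by simpa using hn)]
    · rw [LSeries_delta]
      simp only [Finset.prod_empty]
      exact hasProd_one
  | insert i I hi ih =>
    obtain ⟨h1, h2⟩ := ih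
    obtain ⟨h3, h4⟩ := cm_spec (h i) hc hs
    have e1 : dc (insert i I) α = cmA (α i) * dc I α := by
      unfold dc
      rw [Finset.prod_insert hi]
    have h3' : LSeriesSummable (fun n => cmA (α i) n) s := h3
    rw [e1]
    constructor
    · exact ArithmeticFunction.LSeriesSummable_mul h3' h1
    · rw [ArithmeticFunction.LSeries_mul' h3' h1]
      refine (h4.mul h2).congr_fun fun p => ?_
      rw [Finset.prod_insert hi]

end Pool.Agent.V1167.GL
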