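import Pool.Agent.V1167.GL.Mer

/-!
# Gaussian sums of a Dirichlet series and its meromorphic continuation, II
-/

set_option autoImplicit false

open MeasureTheory Filter Topology Set Complex

namespace Pool.Agent.V1167.GL

open Pool.Agent.V11291.GS
open Pool.Agent.V11291.ME (an_of)

variable {ι : Type*} {x : ι → ℝ} {c : ι → ℂ} {δ σ θ : ℝ}
variable {Z : Finset ℂ} {μ : ℂ → ℂ} {N : ℕ} {d : ℂ → ℕ → ℂ}

/-- a bound for the exponents -/
noncomputable def tt (σ : ℝ) (Z : Finset ℂ) (μ : ℂ → ℂ) : ℝ :=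
  max (2 * σ ^ 2 + 1 + 1) (∑ β ∈ Z, |(μ β).re| + 1)

lemma tt_ge (σ : ℝ) (Z : Finset ℂ) (μ : ℂ → ℂ) : 2 * σ ^ 2 + 1 + 1 ≤ tt σ Z μ ∧
    (∀ β ∈ Z, (μ β).re + 1 ≤ tt σ Z μ) ∧ 0 ≤ tt σ Z μ := by
  have h0 : 2 * σ ^ 2 + 1 + 1 ≤ tt σ Z μ := le_max_left _ _
  refine ⟨h0, fun β hβ => ?_, by nlinarith [sq_nonneg σ]⟩
  have h1 := Finset.single_le_sum (f := fun β => |(μ β).re|) (fun β _ => abs_nonneg _) hβ
  have h2 : ∑ β ∈ Z, |(μ β).re| + 1 ≤ tt σ Z μ := le_max_right _ _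
  have h3 := le_abs_self (μ β).re
  linarith

lemma diff_bd (D : GD x c δ σ) :
    ∃ K, Bd (fun t => (G x c t - ex Z μ N d t) / t) K (tt σ Z μ) := by
  obtain ⟨h1, h2, -⟩ := tt_ge σ Z μ
  obtain ⟨K₂, hK₂⟩ := ex_bd (Z := Z) (μ := μ) (N := N) (d := d) h2
  have hG := D.G_bd
  refine ⟨kB δ * S₀ x c σ + K₂, ?_, add_nonneg hG.K0 hK₂.K0, fun t ht => ?_⟩
  · refine (hG.meas.sub hK₂.meas).congr (ae_of_all _ fun t => ?_)
    simp only [Pi.sub_apply]
    rw [sub_div]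
  · rw [sub_div, add_mul]
    refine (norm_sub_le _ _).trans (add_le_add ((hG.bd t ht).trans ?_) (hK₂.bd t ht))
    refine mul_le_mul_of_nonneg_left (Real.exp_le_exp.2 ?_) hG.K0
    exact mul_le_mul_of_nonneg_right h1 ht.le

lemma diff_lap (D : GD x c δ σ) {v : ℂ} (hv : tt σ Z μ < v.re) :
    lap (fun t => (G x c t - ex Z μ N d t) / t) v =
      lap (fun t => G x c t / t) v - pp Z μ N d v := by
  obtain ⟨h1, h2, -⟩ := tt_ge σ Z μ
  have hv2 : ∀ β ∈ Z, (μ β).re + 1 < v.re := fun β hβ => (h2 β hβ).trans_lt hv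
  rw [← ex_lap (N := N) (d := d) hv2]
  unfold lap
  rw [← integral_sub (D.G_bd.int (by linarith)) (ex_int hv2)]
  refine setIntegral_congr_fun measurableSet_Ioi fun t _ => ?_
  simp only
  rw [sub_div, mul_sub]

/-- **continuation ⟹ expansion** -/
theorem mer_up (D : GD x c δ σ) [Countable ι] (hθ : 0 ≤ θ) {K : ℂ → ℂ}
    (hKd : ∀ v : ℂ, θ < v.re → DifferentiableAt ℂ K v) {R₀ : ℝ}
    (hfar : ∀ v : ℂ, θ < v.re → R₀ < ‖v‖ → K v = ll x c (sr v) - pp Z μ N d v) :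
    Sub (fun T => G x c T - ex Z μ N d T) θ := by
  obtain ⟨B₁, R₂, hB₁, hR₂, hpd⟩ := pp_deriv (Z := Z) (μ := μ) (N := N) (d := d)
  obtain ⟨B, hB, hBl⟩ := D.ph'_le (Z := ∅) (m := fun _ => 0)
  obtain ⟨Kg, hBd⟩ := diff_bd (Z := Z) (μ := μ) (N := N) (d := d) D
  obtain ⟨ht1, ht2, ht3⟩ := tt_ge σ Z μ
  set R : ℝ := max (R₁ σ ∅) (max R₀ R₂) with hR
  have hRa : R₁ σ ∅ ≤ R := le_max_left _ _
  have hRb : R₀ ≤ R := (le_max_left _ _).trans (le_max_right _ _)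
  have hRc : R₂ ≤ R := (le_max_right _ _).trans (le_max_right _ _)
  have hR1 : 1 ≤ R := (R₁_ge σ ∅).1.trans hRa
  set t₀ : ℝ := max (tt σ Z μ) θ with ht₀
  have hσ0 := D.σ0
  have hta : tt σ Z μ ≤ t₀ := le_max_left _ _
  have htb : θ ≤ t₀ := le_max_right _ _
  refine absU (t₀ := t₀) (R := R) (B := B + B₁) (K := K)
    (D.G_cont.sub ex_cont) (fun y hy => ?_) hBd hKd hta htb ?_ hR1 (add_nonneg hB hB₁) ?_
  · rw [GD.G_zero hy, ex_zero hy, sub_zero]
  · refine ident (isOpen_lt continuous_const Complex.continuous_re) (convex_halfSpace_re_gt _)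
      (R := max t₀ R) (fun v hv => hBd.diff (lt_of_le_of_lt hta hv))
      (fun v hv => hKd v (lt_of_le_of_lt htb hv)) fun y hy => ?_
    have hy1 : t₀ < y := (le_max_left _ _).trans_lt hy
    have hy2 : R < y := (le_max_right _ _).trans_lt hy
    have hy0 : 0 < y := by linarith
    refine ⟨by simpa using hy1, ?_⟩
    set r : ℝ := Real.sqrt y with hr
    have hr0 : 0 < r := Real.sqrt_pos.2 hy0
    have hr2 : r ^ 2 = y := Real.sq_sqrt hy0.le
    have hyr : (y : ℂ) = (r : ℂ) ^ 2 := by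
      rw [← hr2]
      push_cast
      rfl
    have hyre : 0 < ((y : ℝ) : ℂ).re := by simpa using hy0
    have hyn : R < ‖((y : ℝ) : ℂ)‖ := by
      rw [Complex.norm_real, Real.norm_of_nonneg hy0.le]
      exact hy2
    have h1 := sr_far hyre (hRa.trans hyn.le)
    have h2 : sr ((y : ℝ) : ℂ) = r := by rw [hyr, sr_real hr0]
    rw [h2, Complex.ofReal_re] at h1
    rw [hfar _ (by simpa using (lt_of_le_of_lt htb hy1)) (hRb.trans_lt hyn), h2,
      diff_lap D (by rw [Complex.ofReal_re]; exact hta.trans_lt hy1), hyr, D.G_lap (by linarith)]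
  · intro v hv h
    have hv0 : 0 < v.re := lt_of_le_of_lt hθ hv
    obtain ⟨hd1, hd2⟩ := hpd v (hRc.trans_lt h)
    have h3 : K =ᶠ[𝓝 v] fun v => ph x c ∅ (fun _ => 0) v - pp Z μ N d v := by
      have ho : IsOpen {v : ℂ | θ < v.re ∧ R < ‖v‖} :=
        (isOpen_lt continuous_const Complex.continuous_re).inter
          (isOpen_lt continuous_const continuous_norm)
      filter_upwards [ho.mem_nhds ⟨hv, h⟩] with z hz
      rw [hfar z hz.1 (hRb.trans_lt hz.2)]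
      unfold ph
      simp
    have h4 : HasDerivAt K (ph' x c ∅ (fun _ => 0) v - deriv (pp Z μ N d) v) v :=
      ((D.ph_deriv hv0 (hRa.trans h.le)).sub hd1.hasDerivAt).congr_of_eventuallyEq h3
    rw [h4.deriv, add_mul]
    exact (norm_sub_le _ _).trans (add_le_add (hBl v hv0 (hRa.trans h.le)) hd2)

/-- the identity theorem for meromorphic functions -/
lemma mer_ident {U : Set ℂ} (hUc : Convex ℝ U) {f g : ℂ → ℂ} (hf : MeromorphicOn f U)
    (hg : MeromorphicOn g U) {x₀ : ℂ} (hx : x₀ ∈ U) (h : f =ᶠ[𝓝[≠] x₀] g) {s : ℂ} (hs : s ∈ U) :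
    f =ᶠ[𝓝[≠] s] g := by
  have hm : MeromorphicOn (fun s => f s - g s) U := fun z hz => (hf z hz).fun_sub (hg z hz)
  have htop : meromorphicOrderAt (fun s => f s - g s) x₀ = ⊤ := by
    rw [meromorphicOrderAt_eq_top_iff]
    filter_upwards [h] with z hz
    rw [hz, sub_self]
  have hs3 : meromorphicOrderAt (fun s => f s - g s) s = ⊤ := by
    by_contra hne
    exact hm.meromorphicOrderAt_ne_top_of_isPreconnected hUc.isPreconnected hs hx hne htop
  rw [meromorphicOrderAt_eq_top_iff] at hs3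
  exact hs3.mono fun z hz => sub_eq_zero.1 hz

lemma eq_at {f g : ℂ → ℂ} {s : ℂ} (hf : ContinuousAt f s) (hg : ContinuousAt g s)
    (h : f =ᶠ[𝓝[≠] s] g) : f s = g s := by
  have h1 : Tendsto f (𝓝[≠] s) (𝓝 (f s)) := hf.tendsto.mono_left nhdsWithin_le_nhds
  have h2 : Tendsto g (𝓝[≠] s) (𝓝 (g s)) := hg.tendsto.mono_left nhdsWithin_le_nhds
  exact tendsto_nhds_unique h1 (h2.congr' (h.mono fun z hz => hz.symm))

/-- **expansion ⟹ continuation** -/
theorem mer_down (D : GD x c δ σ) [Countable ι] (hθ : 0 ≤ θ)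
    (h : Sub (fun T => G x c T - ex Z μ N d T) θ) :
    ∃ K : ℂ → ℂ, (∀ v : ℂ, θ < v.re → DifferentiableAt ℂ K v) ∧
      ∀ s ∈ W θ, σ < s.re → (∀ β ∈ Z, s ^ 2 ≠ μ β) → K (s ^ 2) + pp Z μ N d (s ^ 2) = ll x c s := by
  obtain ⟨Kg, hBd⟩ := diff_bd (Z := Z) (μ := μ) (N := N) (d := d) D
  obtain ⟨ht1, ht2, ht3⟩ := tt_ge σ Z μ
  have hσ0 := D.σ0
  set K : ℂ → ℂ := lap (fun t => (G x c t - ex Z μ N d t) / t) with hK
  have hKd : ∀ v : ℂ, θ < v.re → DifferentiableAt ℂ K v := fun v hv =>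
    absD (g := fun T => G x c T - ex Z μ N d T) ht3 hBd hθ h hv
  refine ⟨K, hKd, ?_⟩
  have hKo : ∀ v : ℂ, θ < v.re → AnalyticAt ℂ K v := fun v hv =>
    an_of (isOpen_lt continuous_const Complex.continuous_re) hKd hv
  set t₀ : ℝ := max (tt σ Z μ) θ with ht₀
  have hta : tt σ Z μ ≤ t₀ := le_max_left _ _
  have htb : θ ≤ t₀ := le_max_right _ _
  have ht0 : 0 ≤ t₀ := ht3.trans hta
  set Φ : ℂ → ℂ := fun s => K (s ^ 2) + pp Z μ N d (s ^ 2) with hΦ
  have hsq : ∀ s : ℂ, AnalyticAt ℂ (fun s : ℂ => s ^ 2) s := fun s => by fun_prop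
  have hco : ∀ (g : ℂ → ℂ) (s : ℂ), AnalyticAt ℂ g (s ^ 2) →
      AnalyticAt ℂ (fun s => g (s ^ 2)) s := fun g s hg =>
    AnalyticAt.comp (g := g) (f := fun s : ℂ => s ^ 2) hg (hsq s)
  have hΦm : MeromorphicOn Φ (W θ) := fun s hs =>
    ((hco K s (hKo _ ((W_iff hθ).1 hs).2)).meromorphicAt).fun_add
      (MeromorphicAt.comp_analyticAt (f := pp Z μ N d) (g := fun s : ℂ => s ^ 2)
        (pp_mer (s ^ 2)) (hsq s))
  have hΦa : ∀ s ∈ W θ, (∀ β ∈ Z, s ^ 2 ≠ μ β) → AnalyticAt ℂ Φ s := fun s hs hs2 =>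
    (hco K s (hKo _ ((W_iff hθ).1 hs).2)).fun_add (hco _ s (pp_an hs2))
  have hla : ∀ s : ℂ, σ < s.re → AnalyticAt ℂ (ll x c) s := fun s hs =>
    an_of (isOpen_lt continuous_const Complex.continuous_re) (fun z hz => D.ll_diff hz) hs
  -- equality far to the right
  set U₁ : Set ℂ := W t₀ ∩ {s : ℂ | σ < s.re} with hU₁
  have hU₁o : IsOpen U₁ := (W_open t₀).inter (isOpen_lt continuous_const Complex.continuous_re)
  have hU₁c : Convex ℝ U₁ := (W_convex t₀).inter (convex_halfSpace_re_gt _)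
  have hWW : W t₀ ⊆ W θ := fun s hs => by
    rw [W_iff hθ]
    rw [W_iff ht0] at hs
    exact ⟨hs.1, htb.trans_lt hs.2⟩
  have hfar : ∀ s ∈ U₁, Φ s = ll x c s := by
    refine ident hU₁o hU₁c (R := max σ (t₀ + 1)) (fun s hs => ?_)
      (fun s hs => D.ll_diff hs.2) fun r hr => ?_
    · refine (hΦa s (hWW hs.1) fun β hβ h0 => ?_).differentiableAt
      have h1 := ((W_iff ht0).1 hs.1).2
      rw [h0] at h1
      linarith [ht2 β hβ]
    · have hr1 : σ < r := (le_max_left _ _).trans_lt hr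
      have hr2 : t₀ + 1 < r := (le_max_right _ _).trans_lt hr
      have hr3 : (r : ℂ) ∈ W t₀ := W_real ht0 (by linarith) (by nlinarith)
      refine ⟨⟨hr3, by simpa using hr1⟩, ?_⟩
      rw [hΦ, hK]
      simp only
      rw [diff_lap D (hta.trans_lt ((W_iff ht0).1 hr3).2), D.G_lap hr1.le]
      ring
  intro s hs hσs hsβ
  set U : Set ℂ := W θ ∩ {s : ℂ | σ < s.re} with hU
  have hUc : Convex ℝ U := (W_convex θ).inter (convex_halfSpace_re_gt _)
  set r : ℝ := max σ (t₀ + 1) + 1 with hr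
  have hr1 : σ < r := (le_max_left σ (t₀ + 1)).trans_lt (lt_add_one _)
  have hr2 : t₀ + 1 < r := (le_max_right σ (t₀ + 1)).trans_lt (lt_add_one _)
  have hr3 : (r : ℂ) ∈ U₁ := ⟨W_real ht0 (by linarith) (by nlinarith), by
    change σ < ((r : ℝ) : ℂ).re
    rwa [Complex.ofReal_re]⟩
  have h1 : Φ =ᶠ[𝓝[≠] (r : ℂ)] ll x c := by
    refine Eventually.filter_mono nhdsWithin_le_nhds ?_
    filter_upwards [hU₁o.mem_nhds hr3] with z hz
    exact hfar z hz
  have h2 : Φ =ᶠ[𝓝[≠] s] ll x c := mer_ident hUc (fun z hz => hΦm z hz.1)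
    (fun z hz => (hla z hz.2).meromorphicAt) ⟨hWW hr3.1, hr3.2⟩ h1 ⟨hs, hσs⟩
  exact eq_at (hΦa s hs hsβ).continuousAt (hla s hσs).continuousAt h2

end Pool.Agent.V1167.GL
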