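import Pool.Agent.V1167.GL.Lin

/-!
# Laplace transforms and growth, the abstract form
-/

set_option autoImplicit false

open MeasureTheory Filter Topology Set Complex
open Pool.Agent.TH942.SL

namespace Pool.Agent.V1167.GL

open Pool.Agent.V11291.GS

/-- **holomorphic continuation of the transform, with decay ⟹ growth** -/
theorem absU {g : ℝ → ℂ} {θ τ Kg t₀ R B : ℝ} (hgc : Continuous g) (hg0 : ∀ y, y ≤ 0 → g y = 0)
    (hBd : Bd (fun t => g t / t) Kg τ) {K : ℂ → ℂ}
    (hKd : ∀ v : ℂ, θ < v.re → DifferentiableAt ℂ K v) (hτt : τ ≤ t₀) (hθt : θ ≤ t₀)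
    (hid : ∀ v : ℂ, t₀ < v.re → lap (fun t => g t / t) v = K v) (hR1 : 1 ≤ R) (hB : 0 ≤ B)
    (hfar : ∀ v : ℂ, θ < v.re → R < ‖v‖ → ‖deriv K v‖ ≤ B * (‖v‖ ^ 2)⁻¹) : Sub g θ := by
  intro ε₀ hε₀
  set κ : ℂ → ℂ := fun v => -deriv K v with hκ
  have hKo : ∀ v : ℂ, θ < v.re → AnalyticAt ℂ K v := by
    intro v hv
    have ho : IsOpen {v : ℂ | θ < v.re} := isOpen_lt continuous_const Complex.continuous_re
    have h1 : DifferentiableOn ℂ K {v : ℂ | θ < v.re} := fun z hz =>
      (hKd z hz).differentiableWithinAt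
    exact h1.analyticAt (ho.mem_nhds hv)
  have hκd : ∀ v : ℂ, θ < v.re → DifferentiableAt ℂ κ v := fun v hv =>
    (hKo v hv).deriv.differentiableAt.neg
  have hlap : ∀ v : ℂ, t₀ < v.re → lap g v = κ v := by
    intro v hv
    have h1 := hBd.deriv (lt_of_le_of_lt hτt hv)
    have h2 : lap (fun t => t * (g t / t)) v = lap g v := by
      unfold lap
      refine setIntegral_congr_fun measurableSet_Ioi fun t ht => ?_
      have ht1 : (t : ℂ) ≠ 0 := by exact_mod_cast (ne_of_gt ht)
      simp only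
      rw [mul_div_cancel₀ _ ht1]
    rw [h2] at h1
    have h3 : K =ᶠ[𝓝 v] fun v => lap (fun t => g t / t) v := by
      have ho : IsOpen {v : ℂ | t₀ < v.re} := isOpen_lt continuous_const Complex.continuous_re
      filter_upwards [ho.mem_nhds hv] with z hz
      exact (hid z hz).symm
    have h4 : HasDerivAt K (-lap g v) v := h1.congr_of_eventuallyEq h3
    rw [hκ]
    simp only
    rw [h4.deriv, neg_neg]
  have hκfar : ∀ v : ℂ, θ < v.re → R < ‖v‖ → ‖κ v‖ ≤ B * (‖v‖ ^ 2)⁻¹ := by
    intro v hv h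
    rw [hκ]
    simp only
    rw [norm_neg]
    exact hfar v hv h
  -- the bound on the lines
  set ε : ℝ := θ + ε₀ with hε
  have hεθ : θ < ε := by rw [hε]; linarith
  obtain ⟨C₁, hC₁⟩ := ((isCompact_closedBall (0 : ℂ) R).inter_right
    (isClosed_le continuous_const Complex.continuous_re : IsClosed {v : ℂ | ε ≤ v.re})
    ).exists_bound_of_continuousOn (f := κ) fun v hv =>
      (hκd v (lt_of_lt_of_le hεθ hv.2)).continuousAt.continuousWithinAt
  set B' : ℝ := B * 4 + |C₁| * (1 + R) ^ (2 : ℝ) with hB'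
  have hB'0 : 0 ≤ B' := by positivity
  have hκb : ∀ v : ℂ, ε ≤ v.re → ‖κ v‖ ≤ B' * (1 + |v.im|) ^ (-(2 : ℝ)) := by
    intro v hv
    have hv0 : θ < v.re := hεθ.trans_le hv
    have hi : 0 < 1 + |v.im| := by positivity
    have him := Complex.abs_im_le_norm v
    rcases lt_or_ge R ‖v‖ with h | h
    · refine (hκfar v hv0 h).trans ?_
      have hv1 : 1 ≤ ‖v‖ := hR1.trans h.le
      have e1 : (‖v‖ ^ 2)⁻¹ ≤ 4 * (1 + |v.im|) ^ (-(2 : ℝ)) := by
        rw [Real.rpow_neg hi.le, show (2 : ℝ) = ((2 : ℕ) : ℝ) by norm_num, Real.rpow_natCast,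
          inv_le_iff_one_le_mul₀ (by positivity), ← div_eq_mul_inv, div_mul_eq_mul_div,
          le_div_iff₀ (by positivity)]
        nlinarith [abs_nonneg v.im]
      calc _ ≤ B * (4 * (1 + |v.im|) ^ (-(2 : ℝ))) := by gcongr
        _ = (B * 4) * (1 + |v.im|) ^ (-(2 : ℝ)) := by ring
        _ ≤ _ := by
          refine mul_le_mul_of_nonneg_right ?_ (by positivity)
          rw [hB']
          have : 0 ≤ |C₁| * (1 + R) ^ (2 : ℝ) := by positivity
          linarith
    · have e1 := hC₁ v ⟨by rwa [Metric.mem_closedBall, dist_zero_right], hv⟩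
      have e2 : 1 ≤ (1 + R) ^ (2 : ℝ) * (1 + |v.im|) ^ (-(2 : ℝ)) := by
        rw [Real.rpow_neg hi.le, ← div_eq_mul_inv, le_div_iff₀ (by positivity), one_mul]
        exact Real.rpow_le_rpow hi.le (by linarith) (by norm_num)
      calc _ ≤ |C₁| * 1 := by
            rw [mul_one]
            exact e1.trans (le_abs_self _)
        _ ≤ |C₁| * ((1 + R) ^ (2 : ℝ) * (1 + |v.im|) ^ (-(2 : ℝ))) := by gcongr
        _ = (|C₁| * (1 + R) ^ (2 : ℝ)) * (1 + |v.im|) ^ (-(2 : ℝ)) := by ring
        _ ≤ _ := by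
          refine mul_le_mul_of_nonneg_right ?_ (by positivity)
          rw [hB']
          have : 0 ≤ B * 4 := by positivity
          linarith
  -- inversion, and shift of the line
  set X : ℝ := max ε (t₀ + 2) with hX
  have hXε : ε ≤ X := le_max_left _ _
  have hXt : t₀ + 2 ≤ X := le_max_right _ _
  have hKK : 0 ≤ Kg := hBd.K0
  have hinv : ∀ y : ℝ, g y = V X (fun z => exp (z * y) * κ z) := by
    intro y
    refine inv_lap hgc hg0 (K := Kg)
      (x₀ := t₀ + 1) hKK (fun t ht => ?_) (by linarith) (fun v hv => ?_) ?_ y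
    · have e1 : t ≤ Real.exp t := by
        have := Real.add_one_le_exp t
        linarith
      have e2 := hBd.bd t ht
      rw [norm_div, Complex.norm_real, Real.norm_of_nonneg ht.le, div_le_iff₀ ht] at e2
      refine e2.trans ?_
      calc Kg * Real.exp (τ * t) * t ≤
            Kg * Real.exp (t₀ * t) * Real.exp t := by gcongr
        _ = _ := by
          rw [mul_assoc, ← Real.exp_add]
          congr 2
          ring
    · exact hlap v (by rw [hv]; linarith)
    · exact line_int (p := 2) (B := B') (by norm_num)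
        (fun s hs => (hκd s (by rw [hs]; linarith)).continuousAt)
        (fun s hs => hκb s (by rw [hs]; exact hXε))
  have hsh : ∀ y : ℝ, 0 < y → V ε (fun z => exp (z * y) * κ z) =
      V X (fun z => exp (z * y) * κ z) := by
    intro y hy
    refine shift (p := 2) (by norm_num) hXε (B := Real.exp (X * y) * B') (fun s hs _ => ?_)
      fun s hs hs2 => ?_
    · exact DifferentiableAt.mul (by fun_prop) (hκd s (lt_of_lt_of_le hεθ hs))
    · rw [norm_mul, Complex.norm_exp, Complex.re_mul_ofReal, mul_assoc]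
      refine mul_le_mul (Real.exp_le_exp.2 ?_) (hκb s hs) (norm_nonneg _) (Real.exp_pos _).le
      exact mul_le_mul_of_nonneg_right hs2 hy.le
  set Ip : ℝ := ∫ t : ℝ, (1 + |t|) ^ (-(2 : ℝ)) with hIp
  have hIp0 : 0 ≤ Ip := integral_nonneg fun t => by positivity
  refine ⟨(2 * Real.pi)⁻¹ * (B' * Ip), ?_⟩
  filter_upwards [eventually_gt_atTop 0] with y hy
  have a3 := norm_V_le (H := fun z => exp (z * y) * κ z) (c := ε)
    (g := fun t => (Real.exp (ε * y) * B') * (1 + |t|) ^ (-(2 : ℝ)))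
    ((decay_int (p := 2) (by norm_num)).const_mul _)
    fun t => by
      have e1 := hκb (ε + t * I) (by simp)
      have e2 : ((ε : ℂ) + t * I).im = t := by simp
      have e3 : ((ε : ℂ) + t * I).re = ε := by simp
      rw [e2] at e1
      rw [norm_mul, Complex.norm_exp, Complex.re_mul_ofReal, e3, mul_assoc]
      exact mul_le_mul_of_nonneg_left e1 (Real.exp_pos _).le
  rw [hsh y hy, ← hinv, integral_const_mul] at a3
  refine a3.trans (le_of_eq ?_)
  ring

/-- **growth ⟹ continuation of the transform** -/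
theorem absD {g : ℝ → ℂ} {θ τ Kg : ℝ} (hτ : 0 ≤ τ) (hBd : Bd (fun t => g t / t) Kg τ)
    (hθ : 0 ≤ θ) (h : Sub g θ) {v : ℂ} (hv : θ < v.re) :
    DifferentiableAt ℂ (lap (fun t => g t / t)) v := by
  set ε : ℝ := (v.re - θ) / 2 with hε
  have hε0 : 0 < ε := half_pos (sub_pos.2 hv)
  have hKK : 0 ≤ Kg := hBd.K0
  have key : ∃ K, Bd (fun t => g t / t) K (θ + ε) := by
    obtain ⟨C, hC⟩ := h ε hε0
    obtain ⟨T₀, hT₀⟩ := Filter.eventually_atTop.1 (hC.and (eventually_ge_atTop 1))
    set T₁ : ℝ := max T₀ 1 with hT₁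
    have hT1 : 1 ≤ T₁ := le_max_right _ _
    have hC0 := abs_nonneg C
    refine ⟨|C| + Kg * Real.exp (τ * T₁), hBd.meas, by positivity, fun t ht => ?_⟩
    have e0 : 1 ≤ Real.exp ((θ + ε) * t) := Real.one_le_exp (by positivity)
    rcases le_total T₁ t with h1 | h1
    · have h2 := (hT₀ t ((le_max_left _ _).trans h1)).1
      have ht1 : 1 ≤ t := hT1.trans h1
      rw [norm_div, Complex.norm_real, Real.norm_of_nonneg ht.le, div_le_iff₀ ht]
      calc ‖g t‖ ≤ C * Real.exp ((θ + ε) * t) := h2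
        _ ≤ |C| * Real.exp ((θ + ε) * t) := by gcongr; exact le_abs_self C
        _ ≤ (|C| + Kg * Real.exp (τ * T₁)) * Real.exp ((θ + ε) * t) := by
          gcongr
          have : 0 ≤ Kg * Real.exp (τ * T₁) := by positivity
          linarith
        _ ≤ _ := le_mul_of_one_le_right (by positivity) ht1
    · have h2 := hBd.bd t ht
      have h3 : Real.exp (τ * t) ≤ Real.exp (τ * T₁) :=
        Real.exp_le_exp.2 (mul_le_mul_of_nonneg_left h1 hτ)
      calc _ ≤ Kg * Real.exp (τ * t) := h2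
        _ ≤ Kg * Real.exp (τ * T₁) := by gcongr
        _ ≤ (|C| + Kg * Real.exp (τ * T₁)) * 1 := by
          rw [mul_one]
          linarith
        _ ≤ _ := by gcongr
  obtain ⟨K, hK⟩ := key
  exact hK.diff (by rw [hε]; linarith)

end Pool.Agent.V1167.GL
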