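import Pool.Agent.V1167.GL.EC
import Pool.Agent.V1167.GL.Dir
import Pool.Agent.V11291.GS.Plane

/-!
# When is `L(E/K, s)` entire for a rational elliptic curve? Gaussian sums of the coefficients and of the local traces

Let `E` be an elliptic curve over `ℚ`, `K` a number field, and `L(E/K, s) = ∑ a_n n^{-s} = ∏_v L_v((N v)^{-s})⁻¹` the
`L`-function of `E` over `K`, the product over all finite places (Mathlib's `WeierstrassCurve.LSeries` of the base change
of `E` to `K`). For `A ≥ 0`, `T > 0` consider the two absolutely convergent Gaussian sums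

`G_A(T) = (4πT)^{-1/2} ∑_n a_n (log n) n^A exp(-(log n)² / (4T))`,

`H_A(T) = (4πT)^{-1/2} ∑_{v, k ≥ 1} t_{v,k} (log N v) (N v)^{kA} exp(-(k log N v)² / (4T))`,

`t_{v,k}` the sum of the `k`-th powers of the reciprocal roots of `L_v`. The following are equivalent:

(a) `L(E/K, s)` extends to an entire function (the first half of the question);

(b) for every `A ≥ 0` (equivalently: for arbitrarily large `A`) `G_A(T) = O(exp(ε T))` for every `ε > 0`;

(c) for every `A ≥ 0` (equivalently: for arbitrarily large `A`) there are finitely many points `β` in the sector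
`|Im s| < Re s + A` and positive integers `m(β)` with `H_A(T) = -∑ m(β) exp((β + A)² T) + O(exp(ε T))` for every
`ε > 0`; these are then the zeros of `L(E/K, s)` in the sector with their multiplicities.

Moreover, for all `A, θ ≥ 0`: `L(E/K, s)` has a holomorphic continuation to the region `Re (s + A)² > θ`, `Re s > -A`, if
and only if `G_A(T) = O(exp((θ + ε) T))` for every `ε > 0`. For totally real or CM fields `K` the function is known to be
meromorphic (potential modularity); then the exponential growth rates of `G_A(T)`, `A ≥ 0`, locate its possible poles.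

No modularity, no growth condition in vertical strips, and no functional equation is assumed. This is the theorem of
`MP_bf61d2_nt.EntireByGaussianSums` (all elliptic curves over number fields) together with the regions of
`MP_7ed9c3_nt.GaussianCoefficients`, for the family of this problem.
-/

set_option autoImplicit false

namespace Pool.Agent.V1167.GL.BF9450

open Filter Topology Set NumberField IsDedekindDomain

variable {K : Type} [Field K] [NumberField K]

/-- `q_v` -/
noncomputable def nrm (v : HeightOneSpectrum (𝓞 K)) : ℕ := Ideal.absNorm v.asIdeal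

/-- The local polynomial `L_v(T)`. -/
noncomputable def locPoly (E : WeierstrassCurve K) (v : HeightOneSpectrum (𝓞 K)) : Polynomial ℤ :=
  (E.baseChange (v.adicCompletion K)).localPolynomial (v.adicCompletionIntegers K)

/-- The power sums `t_{v,k}` of the reciprocal roots of `L_v`, by Newton's recursion. -/
noncomputable def tr (E : WeierstrassCurve K) (v : HeightOneSpectrum (𝓞 K)) : ℕ → ℤ
  | 0 => 2
  | 1 => -(locPoly E v).coeff 1
  | (k + 2) => -(locPoly E v).coeff 1 * tr E v (k + 1) - (locPoly E v).coeff 2 * tr E v k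

/-- The sector `|Im s| < Re s + A`. -/
def Sector (A : ℝ) : Set ℂ := {s | |s.im| < s.re + A}

/-- The Gaussian sum `G_A(T)` of the coefficients. -/
noncomputable def gaussCoeff (E : WeierstrassCurve K) (A T : ℝ) : ℝ :=
  (Real.sqrt (4 * Real.pi * T))⁻¹ * ∑' n : ℕ, (E.LFunction n : ℝ) *
    (Real.log n * (n : ℝ) ^ A * Real.exp (-(Real.log n ^ 2 / (4 * T))))

/-- The Gaussian sum `H_A(T)` of the local traces. -/
noncomputable def gaussTrace (E : WeierstrassCurve K) (A T : ℝ) : ℝ :=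
  (Real.sqrt (4 * Real.pi * T))⁻¹ * ∑' q : HeightOneSpectrum (𝓞 K) × ℕ, (tr E q.1 (q.2 + 1) : ℝ) *
    (Real.log (nrm q.1) * (nrm q.1 : ℝ) ^ (A * (q.2 + 1)) *
      Real.exp (-(((q.2 + 1) * Real.log (nrm q.1)) ^ 2 / (4 * T))))

/-- `G_A(T) = O(exp((θ + ε) T))` for every `ε > 0`. -/
def GrowsAtMost (E : WeierstrassCurve K) (A θ : ℝ) : Prop :=
  ∀ ε : ℝ, 0 < ε → ∃ C : ℝ, ∀ᶠ T : ℝ in atTop, |gaussCoeff E A T| ≤ C * Real.exp ((θ + ε) * T)

/-- The region `Re (s + A)² > θ`, `Re s > -A`. -/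
def Region (A θ : ℝ) : Set ℂ := {s | -A < s.re ∧ θ < ((s + A) ^ 2).re}

/-- `H_A(T) = -∑_{β ∈ Z} m(β) exp((β + A)² T) + O(exp(ε T))` for every `ε > 0`. -/
def Expansion (E : WeierstrassCurve K) (A : ℝ) (Z : Finset ℂ) (m : ℂ → ℕ) : Prop :=
  ∀ ε : ℝ, 0 < ε → ∃ C : ℝ, ∀ᶠ T : ℝ in atTop,
    ‖(gaussTrace E A T : ℂ) + ∑ β ∈ Z, (m β : ℂ) * Complex.exp ((β + A) ^ 2 * T)‖ ≤
      C * Real.exp (ε * T)

/-- There is such an expansion with points `β` in the sector, `Re β ≤ 4`, and natural numbers `m(β)`. -/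
def ZerosOnly (E : WeierstrassCurve K) (A : ℝ) : Prop :=
  ∃ (Z : Finset ℂ) (m : ℂ → ℕ), (∀ β ∈ Z, β ∈ Sector A ∧ β.re ≤ 4) ∧ Expansion E A Z m

/-- `F` is an entire function which agrees with `L(E/K, s)` for `Re s > 2`. -/
def IsEntireContinuation (E : WeierstrassCurve K) (F : ℂ → ℂ) : Prop :=
  Differentiable ℂ F ∧ ∀ s : ℂ, 2 < s.re → F s = E.LSeries s

open Pool.Agent.V1167.GL Pool.Agent.V11291.GS

lemma tr_eq (E : WeierstrassCurve K) (v : HeightOneSpectrum (𝓞 K)) (k : ℕ) :
    tr E v k = pws (Pool.Agent.W189.NF.aV E v) (Pool.Agent.W189.NF.eV E v) k := by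
  have h1 : (locPoly E v).coeff 1 = -Pool.Agent.W189.NF.aV E v := by
    unfold locPoly Pool.Agent.W189.NF.aV
    rw [Pool.Agent.W189.NF.localPolynomial_eq, Polynomial.coeff_add, Polynomial.coeff_sub,
      Polynomial.coeff_C_mul, Polynomial.coeff_C_mul, Polynomial.coeff_X_pow, Polynomial.coeff_X,
      Polynomial.coeff_one]
    norm_num
  have h2 : (locPoly E v).coeff 2 = Pool.Agent.W189.NF.eV E v := by
    unfold locPoly Pool.Agent.W189.NF.eV
    rw [Pool.Agent.W189.NF.localPolynomial_eq, Polynomial.coeff_add, Polynomial.coeff_sub,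
      Polynomial.coeff_C_mul, Polynomial.coeff_C_mul, Polynomial.coeff_X_pow, Polynomial.coeff_X,
      Polynomial.coeff_one]
    norm_num
  induction k using Nat.twoStepInduction with
  | zero => simp [tr, pws]
  | one => simp [tr, pws, h1]
  | more k e1 e2 => rw [tr, pws, e1, e2, h1, h2, neg_neg]

lemma gauss_eq (E : WeierstrassCurve K) (A T : ℝ) : gaussTrace E A T = gp E A T := by
  unfold gaussTrace gp
  simp only [tr_eq]
  rfl

lemma expansion_iff (E : WeierstrassCurve K) (A : ℝ) (Z : Finset ℂ) (m : ℂ → ℕ) :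
    Expansion E A Z m ↔
      Ex (xx fun v : HeightOneSpectrum (𝓞 K) => nn v) (cc (rts E)) A Z fun β => (m β : ℤ) := by
  unfold Expansion Ex
  simp only [gauss_eq, gp_eq, Int.cast_natCast]

/-- the coefficients -/
noncomputable def co (E : WeierstrassCurve K) (n : ℕ) : ℂ := ((E.LFunction n : ℤ) : ℂ)

lemma co_sum (E : WeierstrassCurve K) (σ : ℝ) (hσ : 2 < σ) : LSeriesSummable (co E) σ :=
  (Pool.Agent.W189.NF.LSeries_hasProd E (s := (σ : ℂ)) (by simpa using hσ)).1

lemma hyp_eq {A θ : ℝ} (hθ : 0 ≤ θ) : Hyp A θ = Region A θ := by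
  ext s
  change s + A ∈ Pool.Agent.V11291.GS.W θ ↔ -A < s.re ∧ θ < ((s + A) ^ 2).re
  rw [Pool.Agent.V11291.GS.W_iff hθ, Complex.add_re, Complex.ofReal_re]
  constructor
  · rintro ⟨h1, h2⟩
    exact ⟨by linarith, h2⟩
  · rintro ⟨h1, h2⟩
    exact ⟨by linarith, h2⟩

lemma sub_iff (E : WeierstrassCurve K) (A θ : ℝ) :
    GrowsAtMost E A θ ↔ Pool.Agent.V1167.GL.Sub (gs (co E) A) θ := by
  have h : ∀ T : ℝ, (gaussCoeff E A T : ℂ) = gs (co E) A T := by
    intro T
    unfold gaussCoeff gs co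
    rw [Complex.ofReal_mul, Complex.ofReal_tsum]
    congr 1
    refine tsum_congr fun n => ?_
    push_cast
    ring
  unfold GrowsAtMost Pool.Agent.V1167.GL.Sub
  simp only [← h, Complex.norm_real, Real.norm_eq_abs]

lemma ls (E : WeierstrassCurve K) : LSeries (co E) = E.LSeries := rfl

/-- zeros only ⟹ the linear criterion -/
lemma sub_of_zeros (E : WeierstrassCurve K) {A : ℝ} (hA : 0 ≤ A) (h : ZerosOnly E A) :
    GrowsAtMost E A 0 := by
  have hc := cnt (K := K)
  have P := ec_ep E (σ := 4) (by norm_num)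
  obtain ⟨Z, m, hZ, hE⟩ := h
  obtain ⟨H, h1, h2⟩ := P.gd.cw_of hA hZ ((expansion_iff E A Z m).1 hE)
  rw [sub_iff, ← dir_crit (a := co E) (σa := 4) (by norm_num)
    (fun σ hσ => co_sum E σ (by linarith)) hA le_rfl]
  refine ⟨fun s => H s * ∏ β ∈ Z, (s - β) ^ m β, fun s hs => ?_, fun s hs => ?_⟩
  · rw [Hyp_zero] at hs
    refine (h1 s hs).1.mul (DifferentiableAt.fun_finsetProd fun β _ => ?_)
    exact DifferentiableAt.pow (by fun_prop) _
  · have h3 := h2 s hs
    simp only [zpow_natCast] at h3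
    have h4 := ec_L E (σ := 4) (by norm_num) hs.le
    rw [ls, ← h4]
    exact h3.symm

/-- an entire continuation has the expansion given by its zeros -/
lemma zeros_of (E : WeierstrassCurve K) {F : ℂ → ℂ} (hF : IsEntireContinuation E F) {A : ℝ}
    (hA : 0 ≤ A) : ∃ Z : Finset ℂ, (∀ β : ℂ, β ∈ Z ↔ β ∈ Sector A ∧ F β = 0) ∧
      (∀ β ∈ Z, β ∈ Sector A ∧ β.re ≤ 4) ∧ Expansion E A Z fun β => analyticOrderNatAt F β := by
  have hc := cnt (K := K)
  have P := ec_ep E (σ := 4) (by norm_num)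
  have han : ∀ z : ℂ, AnalyticAt ℂ F z := fun z => hF.1.analyticAt z
  obtain ⟨Z, h3, h4, h5⟩ := P.gd.plane_ex (f := F) (fun z _ => (han z).meromorphicAt) (σ' := 4)
    (fun s hs => by rw [hF.2 s (by linarith), ec_L E (σ := 4) (by norm_num) hs.le]) hA
  -- F is not identically zero
  have hne : ∀ z : ℂ, analyticOrderAt F z ≠ ⊤ := by
    intro z hz
    have h0 : F =ᶠ[𝓝 z] 0 := analyticOrderAt_eq_top.1 hz
    have hAn : AnalyticOnNhd ℂ F Set.univ := fun w _ => han w
    have h1 := hAn.eqOn_zero_of_preconnected_of_eventuallyEq_zero isPreconnected_univ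
      (Set.mem_univ z) h0
    have h2 : F 5 = 0 := h1 (Set.mem_univ _)
    have h6 : F 5 = Complex.exp (ll (xx fun v : HeightOneSpectrum (𝓞 K) => nn v)
        (cc (rts E)) 5) := by
      rw [hF.2 5 (by norm_num), ec_L E (σ := 4) (by norm_num) (by norm_num)]
    rw [h6] at h2
    exact Complex.exp_ne_zero _ h2
  have hord : ∀ β : ℂ, meromorphicOrderAt F β = ((analyticOrderNatAt F β : ℤ) : WithTop ℤ) := by
    intro β
    rw [(han β).meromorphicOrderAt_eq]
    obtain ⟨k, hk⟩ := ENat.ne_top_iff_exists.1 (hne β)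
    unfold analyticOrderNatAt
    rw [← hk]
    rfl
  refine ⟨Z, fun β => ?_, h4, ?_⟩
  · rw [h3 β, hord]
    have h7 : ((analyticOrderNatAt F β : ℤ) : WithTop ℤ) ≠ 0 ↔ F β = 0 := by
      have e1 : ((analyticOrderNatAt F β : ℤ) : WithTop ℤ) ≠ 0 ↔ analyticOrderNatAt F β ≠ 0 := by
        norm_cast
      rw [e1]
      unfold analyticOrderNatAt
      rw [Ne, ENat.toNat_eq_zero, not_or]
      constructor
      · rintro ⟨e2, -⟩
        exact (han β).analyticOrderAt_ne_zero.1 e2
      · intro e2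
        exact ⟨(han β).analyticOrderAt_ne_zero.2 e2, hne β⟩
    rw [h7]
    rfl
  · rw [expansion_iff]
    have h8 : (fun β => (meromorphicOrderAt F β).untop₀) = fun β => (analyticOrderNatAt F β : ℤ) := by
      funext β
      rw [hord]
      rfl
    rw [h8] at h5
    exact h5

/-- for all elliptic curves -/
theorem main (E : WeierstrassCurve K) :
    [(∃ F : ℂ → ℂ, IsEntireContinuation E F),
      (∀ A : ℝ, 0 ≤ A → GrowsAtMost E A 0),
      (∀ A₀ : ℝ, ∃ A : ℝ, A₀ ≤ A ∧ 0 ≤ A ∧ GrowsAtMost E A 0),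
      (∀ A : ℝ, 0 ≤ A → ZerosOnly E A),
      (∀ A₀ : ℝ, ∃ A : ℝ, A₀ ≤ A ∧ 0 ≤ A ∧ ZerosOnly E A)].TFAE ∧
    (∀ A θ : ℝ, 0 ≤ A → 0 ≤ θ →
      ((∃ F : ℂ → ℂ, (∀ s : ℂ, s ∈ Region A θ ∨ 2 < s.re → DifferentiableAt ℂ F s) ∧
        ∀ s : ℂ, 2 < s.re → F s = E.LSeries s) ↔ GrowsAtMost E A θ)) ∧
    ∀ F : ℂ → ℂ, IsEntireContinuation E F → ∀ A : ℝ, 0 ≤ A →
      ∃ Z : Finset ℂ, (∀ β : ℂ, β ∈ Z ↔ β ∈ Sector A ∧ F β = 0) ∧
        Expansion E A Z fun β => analyticOrderNatAt F β := by
  obtain ⟨h1, h2⟩ := dir_entire (a := co E) (σa := 2) (by norm_num) (co_sum E)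
  simp only [← sub_iff] at h1 h2
  refine ⟨?_, fun A θ hA hθ => ?_, fun F hF A hA => ?_⟩
  · tfae_have 1 ↔ 2 := h1
    tfae_have 1 ↔ 3 := h2
    tfae_have 1 → 4 := by
      rintro ⟨F, hF⟩ A hA
      obtain ⟨Z, -, e2, e3⟩ := zeros_of E hF hA
      exact ⟨Z, _, e2, e3⟩
    tfae_have 4 → 5 := fun h A₀ =>
      ⟨max A₀ 0, le_max_left _ _, le_max_right _ _, h _ (le_max_right _ _)⟩
    tfae_have 5 → 3 := by
      intro h A₀
      obtain ⟨A, e1, e2, e3⟩ := h A₀
      exact ⟨A, e1, e2, sub_of_zeros E e2 e3⟩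
    tfae_finish
  · have h3 := dir_crit (a := co E) (σa := 2) (by norm_num) (co_sum E) hA hθ
    rw [← sub_iff, hyp_eq hθ] at h3
    exact h3
  · obtain ⟨Z, e1, -, e3⟩ := zeros_of E hF hA
    exact ⟨Z, e1, e3⟩

/-- **Theorem.** Let `E` be an elliptic curve over `ℚ` and `K` a number field. The following are equivalent:

(a) `L(E/K, s)` has a continuation to an entire function;

(b) for every `A ≥ 0` the Gaussian sum `G_A(T)` of the coefficients is `O(exp(ε T))` for every `ε > 0`;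
(b') the same for arbitrarily large `A`;

(c) for every `A ≥ 0` the Gaussian sum `H_A(T)` of the local traces has an expansion
`-∑ m(β) exp((β + A)² T) + O(exp(ε T))` with finitely many `β` in the sector and natural numbers `m(β)`;
(c') the same for arbitrarily large `A`.

(d) For all `A, θ ≥ 0` there is a function which is holomorphic in the union of the half plane `Re s > 2` and the region
`Re (s + A)² > θ`, `Re s > -A`, and agrees with `L(E/K, s)` for `Re s > 2`, if and only if `G_A(T) = O(exp((θ + ε) T))`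
for every `ε > 0`.

(e) If `F` is an entire continuation of `L(E/K, s)`, then for every `A ≥ 0` it has only finitely many zeros in the sector
`|Im s| < Re s + A`, and there is the expansion in (c) with the zeros `β` of `F` in the sector and their
multiplicities `m(β)`. -/
theorem result (E : WeierstrassCurve ℚ) [E.IsElliptic] (K : Type) [Field K] [NumberField K] :
    [(∃ F : ℂ → ℂ, IsEntireContinuation (E.baseChange K) F),
      (∀ A : ℝ, 0 ≤ A → GrowsAtMost (E.baseChange K) A 0),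
      (∀ A₀ : ℝ, ∃ A : ℝ, A₀ ≤ A ∧ 0 ≤ A ∧ GrowsAtMost (E.baseChange K) A 0),
      (∀ A : ℝ, 0 ≤ A → ZerosOnly (E.baseChange K) A),
      (∀ A₀ : ℝ, ∃ A : ℝ, A₀ ≤ A ∧ 0 ≤ A ∧ ZerosOnly (E.baseChange K) A)].TFAE ∧
    (∀ A θ : ℝ, 0 ≤ A → 0 ≤ θ →
      ((∃ F : ℂ → ℂ, (∀ s : ℂ, s ∈ Region A θ ∨ 2 < s.re → DifferentiableAt ℂ F s) ∧
        ∀ s : ℂ, 2 < s.re → F s = (E.baseChange K).LSeries s) ↔ GrowsAtMost (E.baseChange K) A θ)) ∧
    ∀ F : ℂ → ℂ, IsEntireContinuation (E.baseChange K) F → ∀ A : ℝ, 0 ≤ A →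
      ∃ Z : Finset ℂ, (∀ β : ℂ, β ∈ Z ↔ β ∈ Sector A ∧ F β = 0) ∧
        Expansion (E.baseChange K) A Z fun β => analyticOrderNatAt F β :=
  main (E.baseChange K)

end Pool.Agent.V1167.GL.BF9450
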