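import Pool.Agent.V11291.GS.Down2
import Pool.Agent.V11291.GS.Plane

/-!
# Gaussian sums of a Dirichlet series and its holomorphic continuation

The linear version of `Pool.Agent.V11291.GS` (which treats the logarithm of an Euler product): the Dirichlet series
`ll x c s = ∑ c_i exp(-s x_i)` has a holomorphic continuation to the region `Re s² > θ`, `Re s > 0`, if and only if
its Gaussian sums grow at most like `exp((θ + ε) T)`.
-/

set_option autoImplicit false

open MeasureTheory Filter Topology Set Complex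
open Pool.Agent.TH942.SL

namespace Pool.Agent.V1167.GL

open Pool.Agent.V11291.GS

variable {ι : Type*} {x : ι → ℝ} {c : ι → ℂ} {δ σ θ : ℝ}

/-- growth at most `exp((θ + ε) T)` for all `ε > 0` -/
def Sub (S : ℝ → ℂ) (θ : ℝ) : Prop :=
  ∀ ε : ℝ, 0 < ε → ∃ C : ℝ, ∀ᶠ T : ℝ in atTop, ‖S T‖ ≤ C * Real.exp ((θ + ε) * T)

lemma sr_W (hθ : 0 ≤ θ) {v : ℂ} (hv : θ < v.re) : sr v ∈ W θ := by
  have h0 : 0 < v.re := lt_of_le_of_lt hθ hv
  rw [W_iff hθ, sr_sq h0]
  exact ⟨Q_pos (sr_mem h0), hv⟩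

lemma W_real (hθ : 0 ≤ θ) {r : ℝ} (hr : 0 < r) (h : θ < r ^ 2) : (r : ℂ) ∈ W θ := by
  rw [W_iff hθ]
  refine ⟨by simpa using hr, ?_⟩
  rw [← Complex.ofReal_pow, Complex.ofReal_re]
  exact h

/-- **continuation ⟹ growth** -/
theorem lin_up (D : GD x c δ σ) [Countable ι] (hθ : 0 ≤ θ) {F : ℂ → ℂ}
    (hF : ∀ s ∈ W θ, DifferentiableAt ℂ F s) {σ' : ℝ} (hσ' : σ' ≤ σ + 1)
    (he : ∀ s ∈ W θ, σ' < s.re → F s = ll x c s) : Sub (G x c) θ := by
  intro ε₀ hε₀
  set K : ℂ → ℂ := fun v => F (sr v) with hK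
  set R := R₁ σ ∅ with hR
  have hR1 : 1 ≤ R := (R₁_ge σ ∅).1
  have hKd : ∀ v : ℂ, θ < v.re → DifferentiableAt ℂ K v := fun v hv =>
    DifferentiableAt.comp v (hF _ (sr_W hθ hv)) (sr_deriv (lt_of_le_of_lt hθ hv)).differentiableAt
  have hfar : ∀ v : ℂ, θ < v.re → R ≤ ‖v‖ → K v = ll x c (sr v) := by
    intro v hv h
    have h1 := sr_far (lt_of_le_of_lt hθ hv) h
    exact he _ (sr_W hθ hv) (by linarith)
  set t₀ : ℝ := max (2 * σ ^ 2 + 1 + 1) θ with ht₀
  have ht1 : 2 * σ ^ 2 + 1 + 1 ≤ t₀ := le_max_left _ _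
  have ht2 : θ ≤ t₀ := le_max_right _ _
  have hσ0 := D.σ0
  have hid : ∀ v ∈ {v : ℂ | t₀ < v.re}, lap (fun t => G x c t / t) v = K v := by
    refine ident (isOpen_lt continuous_const Complex.continuous_re) (convex_halfSpace_re_gt _)
      (R := max t₀ R) (fun v hv => D.G_bd.diff (lt_of_le_of_lt ht1 hv))
      (fun v hv => hKd v (lt_of_le_of_lt ht2 hv)) fun y hy => ?_
    have hy1 : t₀ < y := (le_max_left _ _).trans_lt hy
    have hy2 : R < y := (le_max_right _ _).trans_lt hy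
    have hy0 : 0 < y := by linarith
    refine ⟨by simpa using hy1, ?_⟩
    set r : ℝ := Real.sqrt y with hr
    have hr0 : 0 < r := Real.sqrt_pos.2 hy0
    have hr2 : r ^ 2 = y := Real.sq_sqrt hy0.le
    have hyr : (y : ℂ) = (r : ℂ) ^ 2 := by
      rw [← hr2]
      push_cast
      rfl
    have hyre : 0 < ((y : ℝ) : ℂ).re := by simpa using hy0
    have hyn : R ≤ ‖((y : ℝ) : ℂ)‖ := by
      rw [Complex.norm_real, Real.norm_of_nonneg hy0.le]
      exact hy2.le
    have h1 := sr_far hyre hyn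
    have h2 : sr ((y : ℝ) : ℂ) = r := by rw [hyr, sr_real hr0]
    rw [h2, Complex.ofReal_re] at h1
    rw [hfar _ (by simpa using (lt_of_le_of_lt ht2 hy1)) hyn, h2, hyr]
    exact D.G_lap (by linarith)
  -- the derivative
  set κ : ℂ → ℂ := fun v => -deriv K v with hκ
  have hKo : ∀ v : ℂ, θ < v.re → AnalyticAt ℂ K v := by
    intro v hv
    have ho : IsOpen {v : ℂ | θ < v.re} := isOpen_lt continuous_const Complex.continuous_re
    have h1 : DifferentiableOn ℂ K {v : ℂ | θ < v.re} := fun z hz =>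
      (hKd z hz).differentiableWithinAt
    exact h1.analyticAt (ho.mem_nhds hv)
  have hκd : ∀ v : ℂ, θ < v.re → DifferentiableAt ℂ κ v := fun v hv =>
    (hKo v hv).deriv.differentiableAt.neg
  have hlap : ∀ v : ℂ, t₀ < v.re → lap (G x c) v = κ v := by
    intro v hv
    have h1 := D.G_bd.deriv (lt_of_le_of_lt ht1 hv)
    have h2 : lap (fun t => t * (G x c t / t)) v = lap (G x c) v := by
      unfold lap
      refine setIntegral_congr_fun measurableSet_Ioi fun t ht => ?_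
      have ht1 : (t : ℂ) ≠ 0 := by exact_mod_cast (ne_of_gt ht)
      simp only
      rw [mul_div_cancel₀ _ ht1]
    rw [h2] at h1
    have h3 : K =ᶠ[𝓝 v] fun v => lap (fun t => G x c t / t) v := by
      have ho : IsOpen {v : ℂ | t₀ < v.re} := isOpen_lt continuous_const Complex.continuous_re
      filter_upwards [ho.mem_nhds hv] with z hz
      exact (hid z hz).symm
    have h4 : HasDerivAt K (-lap (G x c) v) v := h1.congr_of_eventuallyEq h3
    rw [hκ]
    simp only
    rw [h4.deriv, neg_neg]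
  obtain ⟨B, hB, hBl⟩ := D.ph'_le (Z := ∅) (m := fun _ => 0)
  have hκfar : ∀ v : ℂ, θ < v.re → R < ‖v‖ → ‖κ v‖ ≤ B * (‖v‖ ^ 2)⁻¹ := by
    intro v hv h
    have hv0 : 0 < v.re := lt_of_le_of_lt hθ hv
    have h3 : K =ᶠ[𝓝 v] fun v => ph x c ∅ (fun _ => 0) v := by
      have ho : IsOpen {v : ℂ | θ < v.re ∧ R < ‖v‖} :=
        (isOpen_lt continuous_const Complex.continuous_re).inter
          (isOpen_lt continuous_const continuous_norm)
      filter_upwards [ho.mem_nhds ⟨hv, h⟩] with z hz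
      rw [hfar z hz.1 hz.2.le]
      unfold ph
      simp
    have h4 : HasDerivAt K (ph' x c ∅ (fun _ => 0) v) v :=
      (D.ph_deriv hv0 h.le).congr_of_eventuallyEq h3
    have h5 : κ v = -ph' x c ∅ (fun _ => 0) v := by
      rw [hκ]
      simp only
      rw [h4.deriv]
    rw [h5, norm_neg]
    exact hBl v hv0 h.le
  -- the bound on the lines
  set ε : ℝ := θ + ε₀ with hε
  have hεθ : θ < ε := by rw [hε]; linarith
  obtain ⟨C₁, hC₁⟩ := ((isCompact_closedBall (0 : ℂ) R).inter_right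
    (isClosed_le continuous_const Complex.continuous_re : IsClosed {v : ℂ | ε ≤ v.re})
    ).exists_bound_of_continuousOn (f := κ) fun v hv =>
      (hκd v (lt_of_lt_of_le hεθ hv.2)).continuousAt.continuousWithinAt
  set B' : ℝ := B * 4 + |C₁| * (1 + R) ^ (2 : ℝ) with hB'
  have hB'0 : 0 ≤ B' := by positivity
  have hκb : ∀ v : ℂ, ε ≤ v.re → ‖κ v‖ ≤ B' * (1 + |v.im|) ^ (-(2 : ℝ)) := by
    intro v hv
    have hv0 : θ < v.re := hεθ.trans_le hv
    have hi : 0 < 1 + |v.im| := by positivity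
    have him := Complex.abs_im_le_norm v
    rcases lt_or_ge R ‖v‖ with h | h
    · refine (hκfar v hv0 h).trans ?_
      have hv1 : 1 ≤ ‖v‖ := hR1.trans h.le
      have e1 : (‖v‖ ^ 2)⁻¹ ≤ 4 * (1 + |v.im|) ^ (-(2 : ℝ)) := by
        rw [Real.rpow_neg hi.le, show (2 : ℝ) = ((2 : ℕ) : ℝ) by norm_num, Real.rpow_natCast,
          inv_le_iff_one_le_mul₀ (by positivity), ← div_eq_mul_inv, div_mul_eq_mul_div,
          le_div_iff₀ (by positivity)]
        nlinarith [abs_nonneg v.im]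
      calc _ ≤ B * (4 * (1 + |v.im|) ^ (-(2 : ℝ))) := by gcongr
        _ = (B * 4) * (1 + |v.im|) ^ (-(2 : ℝ)) := by ring
        _ ≤ _ := by
          refine mul_le_mul_of_nonneg_right ?_ (by positivity)
          rw [hB']
          have : 0 ≤ |C₁| * (1 + R) ^ (2 : ℝ) := by positivity
          linarith
    · have e1 := hC₁ v ⟨by rwa [Metric.mem_closedBall, dist_zero_right], hv⟩
      have e2 : 1 ≤ (1 + R) ^ (2 : ℝ) * (1 + |v.im|) ^ (-(2 : ℝ)) := by
        rw [Real.rpow_neg hi.le, ← div_eq_mul_inv, le_div_iff₀ (by positivity), one_mul]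
        exact Real.rpow_le_rpow hi.le (by linarith) (by norm_num)
      calc _ ≤ |C₁| * 1 := by
            rw [mul_one]
            exact e1.trans (le_abs_self _)
        _ ≤ |C₁| * ((1 + R) ^ (2 : ℝ) * (1 + |v.im|) ^ (-(2 : ℝ))) := by gcongr
        _ = (|C₁| * (1 + R) ^ (2 : ℝ)) * (1 + |v.im|) ^ (-(2 : ℝ)) := by ring
        _ ≤ _ := by
          refine mul_le_mul_of_nonneg_right ?_ (by positivity)
          rw [hB']
          have : 0 ≤ B * 4 := by positivity
          linarith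
  -- inversion, and shift of the line
  set X : ℝ := max ε (t₀ + 2) with hX
  have hXε : ε ≤ X := le_max_left _ _
  have hXt : t₀ + 2 ≤ X := le_max_right _ _
  have hKK : 0 ≤ kB δ * S₀ x c σ := mul_nonneg (kB_nonneg D.δ0) S₀_nonneg
  have hinv : ∀ y : ℝ, G x c y = V X (fun z => exp (z * y) * κ z) := by
    intro y
    refine inv_lap D.G_cont (fun y hy => GD.G_zero hy) (K := kB δ * S₀ x c σ)
      (x₀ := t₀ + 1) hKK (fun t ht => ?_) (by linarith) (fun v hv => ?_) ?_ y
    · have e1 : t ≤ Real.exp t := by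
        have := Real.add_one_le_exp t
        linarith
      have e2 := D.G_bd.bd t ht
      rw [norm_div, Complex.norm_real, Real.norm_of_nonneg ht.le, div_le_iff₀ ht] at e2
      refine e2.trans ?_
      calc kB δ * S₀ x c σ * Real.exp ((2 * σ ^ 2 + 1 + 1) * t) * t ≤
            kB δ * S₀ x c σ * Real.exp (t₀ * t) * Real.exp t := by gcongr
        _ = _ := by
          rw [mul_assoc, ← Real.exp_add]
          congr 2
          ring
    · exact hlap v (by rw [hv]; linarith)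
    · exact line_int (p := 2) (B := B') (by norm_num)
        (fun s hs => (hκd s (by rw [hs]; linarith)).continuousAt)
        (fun s hs => hκb s (by rw [hs]; exact hXε))
  have hsh : ∀ y : ℝ, 0 < y → V ε (fun z => exp (z * y) * κ z) =
      V X (fun z => exp (z * y) * κ z) := by
    intro y hy
    refine shift (p := 2) (by norm_num) hXε (B := Real.exp (X * y) * B') (fun s hs _ => ?_)
      fun s hs hs2 => ?_
    · exact DifferentiableAt.mul (by fun_prop) (hκd s (lt_of_lt_of_le hεθ hs))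
    · rw [norm_mul, Complex.norm_exp, Complex.re_mul_ofReal, mul_assoc]
      refine mul_le_mul (Real.exp_le_exp.2 ?_) (hκb s hs) (norm_nonneg _) (Real.exp_pos _).le
      exact mul_le_mul_of_nonneg_right hs2 hy.le
  set Ip : ℝ := ∫ t : ℝ, (1 + |t|) ^ (-(2 : ℝ)) with hIp
  have hIp0 : 0 ≤ Ip := integral_nonneg fun t => by positivity
  refine ⟨(2 * Real.pi)⁻¹ * (B' * Ip), ?_⟩
  filter_upwards [eventually_gt_atTop 0] with y hy
  have a3 := norm_V_le (H := fun z => exp (z * y) * κ z) (c := ε)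
    (g := fun t => (Real.exp (ε * y) * B') * (1 + |t|) ^ (-(2 : ℝ)))
    ((decay_int (p := 2) (by norm_num)).const_mul _)
    fun t => by
      have e1 := hκb (ε + t * I) (by simp)
      have e2 : ((ε : ℂ) + t * I).im = t := by simp
      have e3 : ((ε : ℂ) + t * I).re = ε := by simp
      rw [e2] at e1
      rw [norm_mul, Complex.norm_exp, Complex.re_mul_ofReal, e3, mul_assoc]
      exact mul_le_mul_of_nonneg_left e1 (Real.exp_pos _).le
  rw [hsh y hy, ← hinv, integral_const_mul] at a3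
  refine a3.trans (le_of_eq ?_)
  ring

/-- the bound for the Laplace transform -/
lemma small (D : GD x c δ σ) (hθ : 0 ≤ θ) (h : Sub (G x c) θ) {ε : ℝ} (hε : 0 < ε) :
    ∃ K, Bd (fun t => G x c t / t) K (θ + ε) := by
  obtain ⟨C, hC⟩ := h ε hε
  obtain ⟨T₀, hT₀⟩ := Filter.eventually_atTop.1 (hC.and (eventually_ge_atTop 1))
  set T₁ : ℝ := max T₀ 1 with hT₁
  have hT1 : 1 ≤ T₁ := le_max_right _ _
  have hKK : 0 ≤ kB δ * S₀ x c σ := mul_nonneg (kB_nonneg D.δ0) S₀_nonneg
  have hC0 := abs_nonneg C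
  refine ⟨|C| + kB δ * S₀ x c σ * Real.exp ((2 * σ ^ 2 + 1 + 1) * T₁), D.G_bd.meas, by positivity,
    fun t ht => ?_⟩
  have e0 : 1 ≤ Real.exp ((θ + ε) * t) := Real.one_le_exp (by positivity)
  rcases le_total T₁ t with h1 | h1
  · have h2 := (hT₀ t ((le_max_left _ _).trans h1)).1
    have ht1 : 1 ≤ t := hT1.trans h1
    rw [norm_div, Complex.norm_real, Real.norm_of_nonneg ht.le, div_le_iff₀ ht]
    calc ‖G x c t‖ ≤ C * Real.exp ((θ + ε) * t) := h2
      _ ≤ |C| * Real.exp ((θ + ε) * t) := by gcongr; exact le_abs_self C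
      _ ≤ (|C| + kB δ * S₀ x c σ * Real.exp ((2 * σ ^ 2 + 1 + 1) * T₁)) *
            Real.exp ((θ + ε) * t) := by
        gcongr
        have : 0 ≤ kB δ * S₀ x c σ * Real.exp ((2 * σ ^ 2 + 1 + 1) * T₁) := by positivity
        linarith
      _ ≤ _ := le_mul_of_one_le_right (by positivity) ht1
  · have h2 := D.G_bd.bd t ht
    have h3 : Real.exp ((2 * σ ^ 2 + 1 + 1) * t) ≤ Real.exp ((2 * σ ^ 2 + 1 + 1) * T₁) :=
      Real.exp_le_exp.2 (mul_le_mul_of_nonneg_left h1 (by positivity))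
    calc _ ≤ kB δ * S₀ x c σ * Real.exp ((2 * σ ^ 2 + 1 + 1) * t) := h2
      _ ≤ kB δ * S₀ x c σ * Real.exp ((2 * σ ^ 2 + 1 + 1) * T₁) := by gcongr
      _ ≤ (|C| + kB δ * S₀ x c σ * Real.exp ((2 * σ ^ 2 + 1 + 1) * T₁)) * 1 := by
        rw [mul_one]
        linarith
      _ ≤ _ := by gcongr

/-- **growth ⟹ continuation** -/
theorem lin_down (D : GD x c δ σ) [Countable ι] (hθ : 0 ≤ θ) (h : Sub (G x c) θ) :
    ∃ F : ℂ → ℂ, (∀ s : ℂ, s ∈ W θ ∨ σ < s.re → DifferentiableAt ℂ F s) ∧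
      ∀ s : ℂ, σ < s.re → F s = ll x c s := by
  classical
  have hF : ∀ v : ℂ, θ < v.re → DifferentiableAt ℂ (lap (fun t => G x c t / t)) v := by
    intro v hv
    obtain ⟨K, hK⟩ := small D hθ h (half_pos (sub_pos.2 hv))
    exact hK.diff (by linarith)
  set E : ℂ → ℂ := fun s => lap (fun t => G x c t / t) (s ^ 2) with hE
  have hEd : ∀ s ∈ W θ, DifferentiableAt ℂ E s := by
    intro s hs
    have h1 : DifferentiableAt ℂ (fun s : ℂ => s ^ 2) s := by fun_prop
    exact DifferentiableAt.comp (g := lap (fun t => G x c t / t)) s (hF _ ((W_iff hθ).1 hs).2) h1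
  have hσ0 := D.σ0
  set U : Set ℂ := W θ ∩ {s : ℂ | σ < s.re} with hU
  have hUo : IsOpen U := (W_open θ).inter (isOpen_lt continuous_const Complex.continuous_re)
  have hUc : Convex ℝ U := (W_convex θ).inter (convex_halfSpace_re_gt _)
  have hid : ∀ s ∈ U, E s = ll x c s := by
    refine ident hUo hUc (R := max σ (θ + 1)) (fun s hs => hEd s hs.1)
      (fun s hs => D.ll_diff hs.2) fun r hr => ?_
    have hr1 : σ < r := (le_max_left _ _).trans_lt hr
    have hr2 : θ + 1 < r := (le_max_right _ _).trans_lt hr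
    refine ⟨⟨W_real hθ (by linarith) (by nlinarith), by simpa using hr1⟩, ?_⟩
    exact D.G_lap hr1.le
  refine ⟨fun s => if s ∈ W θ then E s else ll x c s, fun s hs => ?_, fun s hs => ?_⟩
  · by_cases hs1 : s ∈ W θ
    · refine (hEd s hs1).congr_of_eventuallyEq ?_
      filter_upwards [(W_open θ).mem_nhds hs1] with z hz
      rw [if_pos hz]
    · have hs2 : σ < s.re := hs.resolve_left hs1
      have ho : IsOpen {s : ℂ | σ < s.re} := isOpen_lt continuous_const Complex.continuous_re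
      refine (D.ll_diff hs2).congr_of_eventuallyEq ?_
      filter_upwards [ho.mem_nhds hs2] with z hz
      by_cases hz1 : z ∈ W θ
      · rw [if_pos hz1]
        exact hid z ⟨hz1, hz⟩
      · rw [if_neg hz1]
  · simp only
    by_cases hs1 : s ∈ W θ
    · rw [if_pos hs1]
      exact hid s ⟨hs1, hs⟩
    · rw [if_neg hs1]

/-- the region `Re (s + A)² > θ`, `Re s > -A` -/
def Hyp (A θ : ℝ) : Set ℂ := {s | s + A ∈ W θ}

lemma Hyp_open (A θ : ℝ) : IsOpen (Hyp A θ) := (W_open θ).preimage (by fun_prop)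

lemma Hyp_convex (A θ : ℝ) : Convex ℝ (Hyp A θ) := by
  intro a ha b hb t u ht hu htu
  have h := W_convex θ ha hb ht hu htu
  change t • a + u • b + (A : ℂ) ∈ W θ
  have e : t • a + u • b + (A : ℂ) = t • (a + (A : ℂ)) + u • (b + (A : ℂ)) := by
    have : (A : ℂ) = t • (A : ℂ) + u • (A : ℂ) := by rw [← add_smul, htu, one_smul]
    rw [smul_add, smul_add]
    nth_rewrite 1 [this]
    ring
  rw [e]
  exact h

lemma Hyp_zero (A : ℝ) : Hyp A 0 = Q A := by
  ext s
  change s + A ∈ W 0 ↔ |s.im| < s.re + A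
  change ‖(Real.sqrt 0 : ℂ) + ((s + A).im : ℂ) * I‖ < (s + A).re ↔ _
  simp

/-- **the criterion** -/
theorem crit (D : GD x c δ σ) [Countable ι] {A : ℝ} (hA : 0 ≤ A) (hθ : 0 ≤ θ) :
    (∃ F : ℂ → ℂ, (∀ s : ℂ, s ∈ Hyp A θ ∨ σ < s.re → DifferentiableAt ℂ F s) ∧
      ∀ s : ℂ, σ < s.re → F s = ll x c s) ↔ Sub (G x (cA x c A)) θ := by
  have D' := D.shifted hA
  constructor
  · rintro ⟨F, h1, h2⟩
    refine lin_up D' hθ (F := fun s => F (s - A)) (fun s hs => ?_) (σ' := σ + A) (by linarith)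
      fun s _ hs => ?_
    · have h3 : s - A ∈ Hyp A θ := by
        change s - A + A ∈ W θ
        rwa [sub_add_cancel]
      exact (h1 _ (Or.inl h3)).comp s (by fun_prop)
    · rw [ll_shift]
      refine h2 _ ?_
      rw [Complex.sub_re, Complex.ofReal_re]
      linarith
  · intro h
    obtain ⟨F, h1, h2⟩ := lin_down D' hθ h
    have h3 : ∀ s : ℂ, σ < s.re → σ + A < (s + A).re := fun s hs => by
      rw [Complex.add_re, Complex.ofReal_re]
      linarith
    refine ⟨fun s => F (s + A), fun s hs => ?_, fun s hs => ?_⟩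
    · exact (h1 (s + A) (hs.imp id (h3 s))).comp s (by fun_prop)
    · simp only
      rw [h2 _ (h3 s hs), ll_shift, add_sub_cancel_right]

/-- **the whole plane** -/
theorem plane (D : GD x c δ σ) [Countable ι]
    (h : ∀ A₀ : ℝ, ∃ A : ℝ, A₀ ≤ A ∧ 0 ≤ A ∧ Sub (G x (cA x c A)) 0) :
    ∃ F : ℂ → ℂ, Differentiable ℂ F ∧ ∀ s : ℂ, σ < s.re → F s = ll x c s := by
  classical
  choose A hA hA0 h1 using fun n : ℕ => h n
  choose F hF1 hF2 using fun n => (crit D (hA0 n) le_rfl).2 (h1 n)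
  have hsub : ∀ n : ℕ, Q n ⊆ Q (A n) := fun n => Q_mono (hA n)
  have hd : ∀ n : ℕ, ∀ s ∈ Q n, DifferentiableAt ℂ (F n) s := fun n s hs =>
    hF1 n s (Or.inl (by rw [Hyp_zero]; exact hsub n hs))
  have hσ0 := D.σ0
  have hag : ∀ n m : ℕ, n ≤ m → ∀ s ∈ Q (n : ℝ), F n s = F m s := by
    intro n m hnm
    refine ident (Q_open _) (Q_convex _) (R := σ) (fun s hs => hd n s hs)
      (fun s hs => hd m s (Q_mono (by exact_mod_cast hnm) hs)) fun r hr => ?_
    have hr' : σ < ((r : ℝ) : ℂ).re := by simpa using hr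
    refine ⟨?_, by rw [hF2 n _ hr', hF2 m _ hr']⟩
    change |((r : ℝ) : ℂ).im| < ((r : ℝ) : ℂ).re + n
    have : (0 : ℝ) ≤ n := n.cast_nonneg
    simp only [Complex.ofReal_im, abs_zero, Complex.ofReal_re]
    linarith
  choose N hN using exists_Q
  refine ⟨fun s => F (N s) s, fun s => ?_, fun s hs => hF2 _ s hs⟩
  refine (hd (N s) s (hN s)).congr_of_eventuallyEq ?_
  filter_upwards [(Q_open (N s : ℝ)).mem_nhds (hN s)] with z hz
  rcases le_total (N z) (N s) with h3 | h3
  · exact hag _ _ h3 z (hN z)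
  · exact (hag _ _ h3 z hz).symm

end Pool.Agent.V1167.GL
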