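import Pool.Agent.V1167.GL.Mer2

/-!
# Residues of Dirichlet series at the edge of convergence, and Gaussian sums
-/

set_option autoImplicit false

open MeasureTheory Filter Topology Set Complex

namespace Pool.Agent.V1167.GL

open Pool.Agent.V11291.GS
open Pool.Agent.V11291.ME (an_of)

variable {ι : Type*} {x : ι → ℝ} {c : ι → ℂ} {δ : ℝ}

/-- a Dirichlet series converging absolutely for `Re s > 1` -/
structure DS (x : ι → ℝ) (c : ι → ℂ) (δ : ℝ) : Prop where
  δ0 : 0 < δ
  ge : ∀ i, δ ≤ x i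
  sum : ∀ σ : ℝ, 1 < σ → Summable fun i => ‖c i‖ * Real.exp (-(σ * x i))

lemma DS.gd (D : DS x c δ) {σ : ℝ} (hσ : 1 < σ) : GD x c δ σ where
  δ0 := D.δ0
  σ0 := by linarith
  ge := D.ge
  sum := D.sum σ hσ

lemma DS.sh (D : DS x c δ) {η σ : ℝ} (hη : 0 < η) (hσ : η < σ) :
    GD x (cA x c (η - 1)) δ σ where
  δ0 := D.δ0
  σ0 := by linarith
  ge := D.ge
  sum := by
    refine (D.sum (σ + 1 - η) (by linarith)).congr fun i => ?_
    unfold cA
    rw [norm_mul, Complex.norm_real, Real.norm_of_nonneg (Real.exp_pos _).le, mul_assoc,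
      ← Real.exp_add]
    congr 2
    ring

lemma DS.diff (D : DS x c δ) {s : ℂ} (hs : 1 < s.re) : DifferentiableAt ℂ (ll x c) s := by
  obtain ⟨σ, h1, h2⟩ := exists_between hs
  exact (D.gd h1).ll_diff h2

/-- continuation to a neighbourhood of `1`, with at most a simple pole, of residue `ρ` -/
def Res1 (x : ι → ℝ) (c : ι → ℂ) (ρ : ℂ) : Prop :=
  ∃ H : ℂ → ℂ, AnalyticAt ℂ H 1 ∧ ∃ r : ℝ, 0 < r ∧
    ∀ s : ℂ, 1 < s.re → ‖s - 1‖ < r → ll x c s = ρ / (s - 1) + H s

/-- the error in the law -/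
noncomputable def er (x : ι → ℝ) (c : ι → ℂ) (ρ : ℂ) (η T : ℝ) : ℂ :=
  G x (cA x c (η - 1)) T - 2 * η * ρ * T * exp (η ^ 2 * T)

lemma sub_er (x : ι → ℝ) (c : ι → ℂ) (ρ : ℂ) (η θ : ℝ) :
    Sub (er x c ρ η) θ ↔ Sub (fun T => G x (cA x c (η - 1)) T -
      ex {0} (fun _ => (η : ℂ) ^ 2) 1 (fun _ _ => 2 * η * ρ) T) θ := by
  unfold Sub
  refine forall_congr' fun ε => forall_congr' fun _ => exists_congr fun C => ?_
  refine eventually_congr ?_
  filter_upwards [eventually_gt_atTop 0] with T hT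
  unfold er ex
  simp only [Finset.sum_singleton, Finset.range_one, zero_add, pow_one, max_eq_left hT.le]
  rw [mul_assoc (2 * (η : ℂ) * ρ)]

lemma pp_one (ρ v : ℂ) (η : ℝ) : pp {0} (fun _ => (η : ℂ) ^ 2) 1 (fun _ _ => 2 * η * ρ) v =
    2 * η * ρ / (v - (η : ℂ) ^ 2) := by
  unfold pp
  simp [div_eq_mul_inv]

/-- **continuation ⟹ law** -/
theorem res_up (D : DS x c δ) [Countable ι] {ρ : ℂ} (h : Res1 x c ρ) :
    ∃ η₀ : ℝ, 0 < η₀ ∧ ∀ η : ℝ, 0 < η → η < η₀ → Sub (er x c ρ η) 0 := by
  obtain ⟨H, hH, r, hr, he⟩ := h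
  obtain ⟨r₂, hr₂, hH2⟩ := Metric.eventually_nhds_iff_ball.1 hH.eventually_analyticAt
  set r₁ : ℝ := min r r₂ with hr₁
  have hr10 : 0 < r₁ := lt_min hr hr₂
  refine ⟨r₁ / 2, by positivity, fun η hη hη2 => ?_⟩
  rw [sub_er]
  set A : ℂ := 1 - (η : ℂ) with hA
  set Hh : ℂ → ℂ := fun z => if η < z.re then ll x c (z + A) - ρ / (z - η) else H (z + A) with hHh
  have hsh : ∀ z : ℂ, ll x (cA x c (η - 1)) z = ll x c (z + A) := fun z => by
    rw [ll_shift]
    congr 1
    rw [hA]
    push_cast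
    ring
  have hre : ∀ z : ℂ, (z + A).re = z.re + (1 - η) := fun z => by
    rw [hA, Complex.add_re, Complex.sub_re, Complex.one_re, Complex.ofReal_re]
  have hsub : ∀ z : ℂ, z + A - 1 = z - η := fun z => by rw [hA]; ring
  have hne : ∀ z : ℂ, 0 < z.re → z + (η : ℂ) ≠ 0 := fun z hz h0 => by
    have h1 := congrArg Complex.re h0
    rw [Complex.add_re, Complex.ofReal_re, Complex.zero_re] at h1
    linarith
  have hne2 : ∀ z : ℂ, η < z.re → z - (η : ℂ) ≠ 0 := fun z hz h0 => by
    have h1 := congrArg Complex.re h0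
    rw [Complex.sub_re, Complex.ofReal_re, Complex.zero_re] at h1
    linarith
  have hoη : IsOpen {z : ℂ | η < z.re} := isOpen_lt continuous_const Complex.continuous_re
  have hd : ∀ z ∈ Q 0, DifferentiableAt ℂ Hh z := by
    intro z hz
    by_cases hzη : η < z.re
    · have h1 : DifferentiableAt ℂ (fun z => ll x c (z + A) - ρ / (z - η)) z := by
        have e1 : DifferentiableAt ℂ (fun z => ll x c (z + A)) z :=
          DifferentiableAt.comp (g := ll x c) z (D.diff (by rw [hre]; linarith)) (by fun_prop)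
        refine e1.sub ?_
        exact DifferentiableAt.div (by fun_prop) (by fun_prop) (hne2 z hzη)
      refine h1.congr_of_eventuallyEq ?_
      filter_upwards [hoη.mem_nhds hzη] with w hw
      rw [hHh]
      simp only
      rw [if_pos hw]
    · push Not at hzη
      have h1 : |z.im| < z.re + 0 := hz
      have h2 : ‖z - η‖ < r₁ := by
        refine (Complex.norm_le_abs_re_add_abs_im _).trans_lt ?_
        rw [Complex.sub_re, Complex.ofReal_re, Complex.sub_im, Complex.ofReal_im, sub_zero,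
          abs_of_nonpos (by linarith)]
        linarith
      have h3 : DifferentiableAt ℂ (fun z => H (z + A)) z := by
        refine DifferentiableAt.comp (g := H) z ?_ (by fun_prop)
        refine (hH2 _ ?_).differentiableAt
        rw [Metric.mem_ball, dist_eq_norm, hsub]
        exact h2.trans_le (min_le_right _ _)
      refine h3.congr_of_eventuallyEq ?_
      have ho : IsOpen {w : ℂ | ‖w - η‖ < r₁} := isOpen_lt (by fun_prop) continuous_const
      filter_upwards [ho.mem_nhds h2] with w hw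
      rw [hHh]
      simp only
      by_cases hwη : η < w.re
      · rw [if_pos hwη, he _ (by rw [hre]; linarith) (by
          rw [hsub]
          exact lt_of_lt_of_le hw (min_le_left _ _)), hsub]
        ring
      · rw [if_neg hwη]
  refine mer_up (D.sh hη (lt_add_one η)) le_rfl
    (K := fun v => Hh (sr v) + ρ / (sr v + η)) (fun v hv => ?_) (R₀ := R₁ η ∅) fun v hv hR => ?_
  · have h1 := sr_mem hv
    have h2 := (sr_deriv hv).differentiableAt
    refine (DifferentiableAt.comp (g := Hh) v (hd _ h1) h2).add ?_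
    exact (differentiableAt_const _).div (h2.add (differentiableAt_const _)) (hne _ (Q_pos h1))
  · have h1 := sr_far hv hR.le
    have h2 : η < (sr v).re := by linarith
    have e1 := hne2 _ h2
    have e2 := hne _ (Q_pos (sr_mem hv))
    have e3 : v - (η : ℂ) ^ 2 = (sr v - η) * (sr v + η) := by
      have := sr_sq hv
      linear_combination -this
    rw [pp_one, hsh, hHh]
    simp only
    rw [if_pos h2, e3]
    field_simp
    ring

/-- **law ⟹ continuation** -/
theorem res_down (D : DS x c δ) [Countable ι] {ρ : ℂ} {η θ : ℝ} (hη : 0 < η) (hθ : 0 ≤ θ)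
    (hθη : θ < η ^ 2) (h : Sub (er x c ρ η) θ) : Res1 x c ρ := by
  rw [sub_er] at h
  obtain ⟨K, hK1, hK2⟩ := mer_down (D.sh hη (lt_add_one η)) hθ h
  have hKo : ∀ v : ℂ, θ < v.re → AnalyticAt ℂ K v := fun v hv =>
    an_of (isOpen_lt continuous_const Complex.continuous_re) hK1 hv
  set A : ℂ := 1 - (η : ℂ) with hA
  have hsh : ∀ z : ℂ, ll x (cA x c (η - 1)) z = ll x c (z + A) := fun z => by
    rw [ll_shift]
    congr 1
    rw [hA]
    push_cast
    ring
  have hre : ∀ z : ℂ, (z + A).re = z.re + (1 - η) := fun z => by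
    rw [hA, Complex.add_re, Complex.sub_re, Complex.one_re, Complex.ofReal_re]
  have hne : ∀ z : ℂ, η < z.re → z ^ 2 ≠ (η : ℂ) ^ 2 := fun z hz h0 => by
    have h1 : (z - η) * (z + η) = 0 := by linear_combination h0
    rcases mul_eq_zero.1 h1 with h2 | h2
    · have h3 := congrArg Complex.re h2
      rw [Complex.sub_re, Complex.ofReal_re, Complex.zero_re] at h3
      linarith
    · have h3 := congrArg Complex.re h2
      rw [Complex.add_re, Complex.ofReal_re, Complex.zero_re] at h3
      linarith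
  set U : Set ℂ := W θ ∩ {z : ℂ | η < z.re} with hU
  have hid : ∀ z ∈ U, K (z ^ 2) + 2 * η * ρ / (z ^ 2 - (η : ℂ) ^ 2) = ll x c (z + A) := by
    refine ident ((W_open θ).inter (isOpen_lt continuous_const Complex.continuous_re))
      ((W_convex θ).inter (convex_halfSpace_re_gt _)) (R := max (η + 1) (θ + 1))
      (fun z hz => ?_) (fun z hz => ?_) fun r hr => ?_
    · have e1 : DifferentiableAt ℂ (fun z : ℂ => K (z ^ 2)) z :=
        DifferentiableAt.comp (g := K) z (hK1 _ ((W_iff hθ).1 hz.1).2) (by fun_prop)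
      exact e1.add (DifferentiableAt.div (by fun_prop) (by fun_prop) (sub_ne_zero.2 (hne z hz.2)))
    · refine DifferentiableAt.comp (g := ll x c) z (D.diff ?_) (by fun_prop)
      have := hz.2
      rw [hre]
      have h3 : η < z.re := this
      linarith
    · have hr1 : η + 1 < r := (le_max_left _ _).trans_lt hr
      have hr2 : θ + 1 < r := (le_max_right _ _).trans_lt hr
      have hrW : (r : ℂ) ∈ W θ := W_real hθ (by linarith) (by nlinarith)
      have hrη : η < ((r : ℝ) : ℂ).re := by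
        rw [Complex.ofReal_re]
        linarith
      refine ⟨⟨hrW, hrη⟩, ?_⟩
      have h1 := hK2 (r : ℂ) hrW (by rw [Complex.ofReal_re]; exact hr1) (fun _ _ => hne _ hrη)
      rw [pp_one, hsh] at h1
      exact h1
  have hηW : (η : ℂ) ∈ W θ := W_real hθ hη hθη
  obtain ⟨r, hr, hball⟩ := Metric.isOpen_iff.1 (W_open θ) _ hηW
  have hsq : ((1 : ℂ) - 1 + η) ^ 2 = (η : ℂ) ^ 2 := by
    simp
  refine ⟨fun s => K ((s - 1 + η) ^ 2) - ρ / (s - 1 + 2 * η), ?_, min r η, lt_min hr hη,
    fun s hs hsr => ?_⟩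
  · have e1 : AnalyticAt ℂ (fun s : ℂ => K ((s - 1 + η) ^ 2)) 1 := by
      refine AnalyticAt.comp (g := K) (f := fun s : ℂ => (s - 1 + η) ^ 2) ?_ (by fun_prop)
      rw [hsq]
      refine hKo _ ?_
      rw [← Complex.ofReal_pow, Complex.ofReal_re]
      exact hθη
    refine e1.fun_sub (analyticAt_const.fun_div (by fun_prop) ?_)
    have h0 : (η : ℂ) ≠ 0 := by exact_mod_cast hη.ne'
    simpa using h0
  · set z : ℂ := s - 1 + η with hz
    have hzr : η < z.re := by
      rw [hz, Complex.add_re, Complex.sub_re, Complex.one_re, Complex.ofReal_re]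
      linarith
    have hzW : z ∈ W θ := hball (by
      rw [Metric.mem_ball, dist_eq_norm, hz, add_sub_cancel_right]
      exact hsr.trans_le (min_le_left _ _))
    have h1 := hid z ⟨hzW, hzr⟩
    have h2 : z + A = s := by rw [hz, hA]; ring
    rw [h2] at h1
    rw [← h1]
    change K (z ^ 2) + 2 * η * ρ / (z ^ 2 - (η : ℂ) ^ 2) =
      ρ / (s - 1) + (K (z ^ 2) - ρ / (s - 1 + 2 * η))
    have e1 : s - 1 = z - η := by rw [hz]; ring
    have e2 : s - 1 + 2 * η = z + η := by rw [hz]; ring
    rw [e2, e1]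
    have e3 : z - (η : ℂ) ≠ 0 := fun h0 => hne z hzr (by linear_combination (z + η) * h0)
    have e4 : z + (η : ℂ) ≠ 0 := fun h0 => hne z hzr (by linear_combination (z - η) * h0)
    have e5 : z ^ 2 - (η : ℂ) ^ 2 = (z - η) * (z + η) := by ring
    rw [e5]
    field_simp
    ring

end Pool.Agent.V1167.GL
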