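import Pool.Agent.V1167.GL.Pp
import Pool.Agent.V1167.GL.Dir

/-!
# Gaussian sums of a Dirichlet series and its meromorphic continuation
-/

set_option autoImplicit false

open MeasureTheory Filter Topology Set Complex

namespace Pool.Agent.V1167.GL

open Pool.Agent.V11291.GS
open Pool.Agent.V11291.ME (an_of)

/-- order at least zero, from an analytic function which agrees nearby -/
lemma ord_nonneg {f h : ℂ → ℂ} {z : ℂ} (hh : AnalyticAt ℂ h z) (he : f =ᶠ[𝓝[≠] z] h) :
    0 ≤ meromorphicOrderAt f z := by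
  rw [meromorphicOrderAt_congr he]
  exact hh.meromorphicOrderAt_nonneg

/-- **extraction of the principal parts** -/
theorem extract {U : Set ℂ} {f : ℂ → ℂ} (hf : MeromorphicOn f U) {Z : Finset ℂ} {μ : ℂ → ℂ}
    (hinj : Set.InjOn μ Z) (hμ : ∀ β ∈ Z, μ β ∈ U)
    (hord : ∀ v ∈ U, meromorphicOrderAt f v < 0 → ∃ β ∈ Z, μ β = v) :
    ∃ (N : ℕ) (d : ℂ → ℕ → ℂ) (K : ℂ → ℂ), (∀ v ∈ U, AnalyticAt ℂ K v) ∧
      ∀ v ∈ U, K =ᶠ[𝓝[≠] v] fun v => f v - pp Z μ N d v := by
  classical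
  have h1 : ∀ β : ℂ, ∃ n : ℕ, β ∈ Z → AnalyticAt ℂ (fun z => (z - μ β) ^ n • f z) (μ β) := by
    intro β
    by_cases hβ : β ∈ Z
    · obtain ⟨n, hn⟩ := hf (μ β) (hμ β hβ)
      exact ⟨n, fun _ => hn⟩
    · exact ⟨0, fun h => absurd h hβ⟩
  choose n hn using h1
  set N : ℕ := Z.sup n with hN
  have hnN : ∀ β ∈ Z, n β ≤ N := fun β hβ => Finset.le_sup hβ
  have h2 : ∀ β : ℂ, ∃ (a : ℕ → ℂ) (h : ℂ → ℂ), β ∈ Z → AnalyticAt ℂ h (μ β) ∧
      ∀ᶠ z in 𝓝[≠] (μ β), f z = h z + ∑ k ∈ Finset.range N, a k * ((z - μ β) ^ (k + 1))⁻¹ := by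
    intro β
    by_cases hβ : β ∈ Z
    · have hg : AnalyticAt ℂ (fun z => (z - μ β) ^ N * f z) (μ β) := by
        have e1 : (fun z => (z - μ β) ^ N * f z) =
            fun z => (z - μ β) ^ (N - n β) * ((z - μ β) ^ n β • f z) := by
          funext z
          rw [smul_eq_mul, ← mul_assoc, ← pow_add, Nat.sub_add_cancel (hnN β hβ)]
        rw [e1]
        exact AnalyticAt.fun_mul (by fun_prop) (hn β hβ)
      obtain ⟨a, h, e1, e2⟩ := local_pp (μ β) N hg
      refine ⟨a, h, fun _ => ⟨e1, ?_⟩⟩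
      filter_upwards [e2, self_mem_nhdsWithin] with z hz hne
      have hne1 : z - μ β ≠ 0 := sub_ne_zero.2 hne
      rw [← hz]
      field_simp
    · exact ⟨0, 0, fun h => absurd h hβ⟩
  choose a h hh using h2
  set d : ℂ → ℕ → ℂ := fun β k => a β k / k.factorial with hd
  have hpp : ∀ v, pp Z μ N d v = ∑ β ∈ Z, ∑ k ∈ Finset.range N,
      a β k * ((v - μ β) ^ (k + 1))⁻¹ := by
    intro v
    unfold pp
    refine Finset.sum_congr rfl fun β _ => Finset.sum_congr rfl fun k _ => ?_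
    have : (k.factorial : ℂ) ≠ 0 := by exact_mod_cast k.factorial_ne_zero
    rw [hd]
    simp only
    rw [div_mul_cancel₀ _ this]
  set g : ℂ → ℂ := fun v => f v - pp Z μ N d v with hg
  have hgm : MeromorphicOn g U := fun v hv => (hf v hv).fun_sub (pp_mer v)
  have hgo : ∀ v ∈ U, 0 ≤ meromorphicOrderAt g v := by
    intro v hv
    by_cases hex : ∃ β ∈ Z, μ β = v
    · obtain ⟨β, hβ, rfl⟩ := hex
      obtain ⟨e1, e2⟩ := hh β hβ
      have e3 : AnalyticAt ℂ (fun z => h β z - ∑ γ ∈ Z.erase β, ∑ k ∈ Finset.range N,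
          a γ k * ((z - μ γ) ^ (k + 1))⁻¹) (μ β) := by
        refine e1.fun_sub (Finset.analyticAt_fun_sum _ fun γ hγ =>
          Finset.analyticAt_fun_sum _ fun k _ => ?_)
        refine analyticAt_const.mul (AnalyticAt.fun_inv (by fun_prop) ?_)
        refine pow_ne_zero _ (sub_ne_zero.2 fun h0 => ?_)
        exact (Finset.ne_of_mem_erase hγ) (hinj (Finset.mem_of_mem_erase hγ) hβ h0.symm)
      refine ord_nonneg e3 ?_
      filter_upwards [e2] with z hz
      rw [hg]
      simp only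
      rw [hpp, hz, ← Finset.add_sum_erase Z _ hβ]
      ring
    · have e1 : 0 ≤ meromorphicOrderAt f v := by
        by_contra h0
        push Not at h0
        exact hex (hord v hv h0)
      have e2 : AnalyticAt ℂ (fun v => -pp Z μ N d v) v :=
        (pp_an fun β hβ h0 => hex ⟨β, hβ, h0.symm⟩).fun_neg
      have e3 := meromorphicOrderAt_add (hf v hv) e2.meromorphicAt
      have e4 : g = f + fun v => -pp Z μ N d v := by
        funext z
        rw [hg, Pi.add_apply]
        ring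
      rw [e4]
      exact (le_min e1 e2.meromorphicOrderAt_nonneg).trans e3
  refine ⟨N, d, toMeromorphicNFOn g U, fun v hv => ?_, fun v hv => ?_⟩
  · have e1 := meromorphicNFOn_toMeromorphicNFOn g U hv
    rw [← e1.meromorphicOrderAt_nonneg_iff_analyticAt, meromorphicOrderAt_toMeromorphicNFOn hgm hv]
    exact hgo v hv
  · exact (hgm.toMeromorphicNFOn_eq_self_on_nhdsNE hv)

end Pool.Agent.V1167.GL
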