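import Pool.Agent.V1167.GL.Mer2

/-!
# Gaussian sums of a Dirichlet series and its meromorphic continuation, III
-/

set_option autoImplicit false

open MeasureTheory Filter Topology Set Complex

namespace Pool.Agent.V1167.GL

open Pool.Agent.V11291.GS
open Pool.Agent.V11291.ME (an_of)

variable {ι : Type*} {x : ι → ℝ} {c : ι → ℂ} {δ σ θ : ℝ}

/-- the points in the variable `(s + A)²` -/
noncomputable def mu (A : ℝ) (β : ℂ) : ℂ := (β + A) ^ 2

/-- the Gaussian sums have an expansion with exponential polynomials -/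
def HasM (x : ι → ℝ) (c : ι → ℂ) (σ A θ : ℝ) : Prop :=
  ∃ (Z : Finset ℂ) (N : ℕ) (d : ℂ → ℕ → ℂ), (∀ β ∈ Z, β ∈ Hyp A θ ∧ β.re ≤ σ) ∧
    Sub (fun T => G x (cA x c A) T - ex Z (mu A) N d T) θ

lemma mu_inj {A : ℝ} (hθ : 0 ≤ θ) {β γ : ℂ} (hβ : β ∈ Hyp A θ) (hγ : γ ∈ Hyp A θ)
    (h : mu A β = mu A γ) : β = γ := by
  have h1 : 0 < (β + A).re := ((W_iff hθ).1 hβ).1
  have h2 : 0 < (γ + A).re := ((W_iff hθ).1 hγ).1
  have h3 : (β - γ) * ((β + A) + (γ + A)) = 0 := by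
    have h4 : (β + A) ^ 2 = (γ + A) ^ 2 := h
    linear_combination h4
  rcases mul_eq_zero.1 h3 with h4 | h4
  · exact sub_eq_zero.1 h4
  · have h5 := congrArg Complex.re h4
    rw [Complex.add_re (β + A), Complex.zero_re] at h5
    linarith

/-- **meromorphic in the region ⟹ expansion** -/
theorem mer_ex (D : GD x c δ σ) [Countable ι] {A : ℝ} (hA : 0 ≤ A) (hθ : 0 ≤ θ) {F : ℂ → ℂ}
    (hF : MeromorphicOn F (Hyp A θ))
    (hfin : {s : ℂ | s ∈ Hyp A θ ∧ meromorphicOrderAt F s < 0}.Finite) {σ' : ℝ}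
    (he : ∀ s ∈ Hyp A θ, σ' < s.re → F s = ll x c s) :
    ∃ (N : ℕ) (d : ℂ → ℕ → ℂ), (∀ β ∈ hfin.toFinset, β ∈ Hyp A θ ∧ β.re ≤ σ) ∧
      Sub (fun T => G x (cA x c A) T - ex hfin.toFinset (mu A) N d T) θ := by
  classical
  set Z : Finset ℂ := hfin.toFinset with hZdef
  have hZ : ∀ β, β ∈ Z ↔ β ∈ Hyp A θ ∧ meromorphicOrderAt F β < 0 := fun β => by
    rw [hZdef, Set.Finite.mem_toFinset]
    rfl
  have hσ0 := D.σ0
  set σ₂ : ℝ := max σ σ' with hσ₂
  have hs1 : σ ≤ σ₂ := le_max_left _ _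
  have hs2 : σ' ≤ σ₂ := le_max_right _ _
  have hla : ∀ s : ℂ, σ < s.re → AnalyticAt ℂ (ll x c) s := fun s hs =>
    an_of (isOpen_lt continuous_const Complex.continuous_re) (fun z hz => D.ll_diff hz) hs
  have hZr : ∀ β ∈ Z, β.re ≤ σ := by
    intro β hβ
    by_contra h0
    push Not at h0
    obtain ⟨h1, h2⟩ := (hZ β).1 hβ
    set r : ℝ := max σ₂ (θ + 1) + 1 with hr
    have hr1 : σ₂ < r := (le_max_left σ₂ (θ + 1)).trans_lt (lt_add_one _)
    have hr2 : θ + 1 < r := (le_max_right σ₂ (θ + 1)).trans_lt (lt_add_one _)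
    have hrW : (r : ℂ) ∈ Hyp A θ := by
      change ((r : ℝ) : ℂ) + (A : ℂ) ∈ W θ
      rw [← Complex.ofReal_add]
      exact W_real hθ (by linarith) (by nlinarith)
    have hrr : σ₂ < ((r : ℝ) : ℂ).re := by rwa [Complex.ofReal_re]
    have h3 : F =ᶠ[𝓝[≠] (r : ℂ)] ll x c := by
      refine Eventually.filter_mono nhdsWithin_le_nhds ?_
      have ho : IsOpen {z : ℂ | σ₂ < z.re} := isOpen_lt continuous_const Complex.continuous_re
      filter_upwards [(Hyp_open A θ).mem_nhds hrW, ho.mem_nhds hrr] with z hz1 hz2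
      exact he z hz1 (hs2.trans_lt hz2)
    have h4 : F =ᶠ[𝓝[≠] β] ll x c := mer_ident (U := Hyp A θ ∩ {s : ℂ | σ < s.re})
      ((Hyp_convex A θ).inter (convex_halfSpace_re_gt _)) (fun z hz => hF z hz.1)
      (fun z hz => (hla z hz.2).meromorphicAt) ⟨hrW, hs1.trans_lt hrr⟩ h3 ⟨h1, h0⟩
    exact absurd h2 (not_lt.2 (ord_nonneg (hla β h0) h4))
  -- the function of `v`
  set f : ℂ → ℂ := F ∘ fun v => sr v - A with hf
  have hsr : ∀ v : ℂ, θ < v.re → AnalyticAt ℂ (fun v => sr v - A) v := fun v hv => by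
    have hv0 : 0 < v.re := lt_of_le_of_lt hθ hv
    have h1 : AnalyticAt ℂ sr v := an_of (U := {v : ℂ | 0 < v.re})
      (isOpen_lt continuous_const Complex.continuous_re)
      (fun z hz => (sr_deriv hz).differentiableAt) hv0
    exact h1.fun_sub analyticAt_const
  have hsH : ∀ v : ℂ, θ < v.re → sr v - A ∈ Hyp A θ := fun v hv => by
    change sr v - A + A ∈ W θ
    rw [sub_add_cancel]
    exact sr_W hθ hv
  have hfm : MeromorphicOn f {v : ℂ | θ < v.re} := fun v hv =>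
    MeromorphicAt.comp_analyticAt (f := F) (g := fun v => sr v - A) (hF _ (hsH v hv)) (hsr v hv)
  obtain ⟨N, d, K, hK1, hK2⟩ := extract (Z := Z) (μ := mu A) hfm
    (fun β hβ γ hγ h => mu_inj hθ ((hZ β).1 hβ).1 ((hZ γ).1 hγ).1 h)
    (fun β hβ => ((W_iff hθ).1 ((hZ β).1 hβ).1).2)
    (fun v hv hord => by
      have hv0 : 0 < v.re := lt_of_le_of_lt hθ hv
      have hder : deriv (fun v => sr v - A) v ≠ 0 := by
        rw [((sr_deriv hv0).sub_const (A : ℂ)).deriv]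
        exact one_div_ne_zero (mul_ne_zero two_ne_zero (Q_ne (sr_mem hv0)))
      rw [hf, meromorphicOrderAt_comp_of_deriv_ne_zero (hsr v hv) hder] at hord
      refine ⟨sr v - A, (hZ _).2 ⟨hsH v hv, hord⟩, ?_⟩
      unfold mu
      rw [sub_add_cancel, sr_sq hv0])
  refine ⟨N, d, fun β hβ => ⟨((hZ β).1 hβ).1, hZr β hβ⟩, ?_⟩
  set s₁ : ℝ := ∑ β ∈ Z, ‖mu A β‖ with hs₁
  refine mer_up (D.shifted hA) hθ (K := K) (fun v hv => (hK1 v hv).differentiableAt)
    (R₀ := max (R₁ (σ₂ + A) ∅) s₁) fun v hv hR => ?_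
  have hv0 : 0 < v.re := lt_of_le_of_lt hθ hv
  have hR1 : R₁ (σ₂ + A) ∅ < ‖v‖ := (le_max_left _ _).trans_lt hR
  have hR2 : s₁ < ‖v‖ := (le_max_right _ _).trans_lt hR
  have hfar : ∀ z : ℂ, θ < z.re → R₁ (σ₂ + A) ∅ < ‖z‖ → f z = ll x (cA x c A) (sr z) := by
    intro z hz hzR
    have h1 := sr_far (lt_of_le_of_lt hθ hz) hzR.le
    rw [hf]
    simp only [Function.comp_apply]
    rw [he _ (hsH z hz) (by rw [Complex.sub_re, Complex.ofReal_re]; linarith), ll_shift]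
  have hne : ∀ β ∈ Z, v ≠ mu A β := fun β hβ h0 => by
    have h1 := Finset.single_le_sum (f := fun β => ‖mu A β‖) (fun β _ => norm_nonneg _) hβ
    rw [h0] at hR2
    linarith
  have h1 := sr_far hv0 hR1.le
  have hc1 : ContinuousAt (fun v => ll x (cA x c A) (sr v) - pp Z (mu A) N d v) v := by
    have e1 : DifferentiableAt ℂ (ll x (cA x c A)) (sr v) := (D.shifted hA).ll_diff (by linarith)
    have e2 : DifferentiableAt ℂ (fun v => ll x (cA x c A) (sr v)) v :=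
      DifferentiableAt.comp v e1 (sr_deriv hv0).differentiableAt
    exact (e2.sub (pp_an hne).differentiableAt).continuousAt
  refine eq_at (g := fun v => ll x (cA x c A) (sr v) - pp Z (mu A) N d v)
    (hK1 v hv).continuousAt hc1 ?_
  refine (hK2 v hv).trans ?_
  refine Eventually.filter_mono nhdsWithin_le_nhds ?_
  have ho : IsOpen {v : ℂ | θ < v.re ∧ R₁ (σ₂ + A) ∅ < ‖v‖} :=
    (isOpen_lt continuous_const Complex.continuous_re).inter
      (isOpen_lt continuous_const continuous_norm)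
  filter_upwards [ho.mem_nhds ⟨hv, hR1⟩] with z hz
  rw [hfar z hz.1 hz.2]

/-- **expansion ⟹ meromorphic in the region** -/
theorem mer_of (D : GD x c δ σ) [Countable ι] {A : ℝ} (hA : 0 ≤ A) (hθ : 0 ≤ θ)
    {Z : Finset ℂ} {N : ℕ} {d : ℂ → ℕ → ℂ} (hZ : ∀ β ∈ Z, β ∈ Hyp A θ ∧ β.re ≤ σ)
    (h : Sub (fun T => G x (cA x c A) T - ex Z (mu A) N d T) θ) :
    ∃ F : ℂ → ℂ, MeromorphicOn F (Hyp A θ) ∧
      (∀ s ∈ Hyp A θ, s ∉ Z → AnalyticAt ℂ F s) ∧
      ∀ s ∈ Hyp A θ, σ < s.re → F s = ll x c s := by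
  obtain ⟨K, hK1, hK2⟩ := mer_down (D.shifted hA) hθ h
  have hKo : ∀ v : ℂ, θ < v.re → AnalyticAt ℂ K v := fun v hv =>
    an_of (isOpen_lt continuous_const Complex.continuous_re) hK1 hv
  have hsq : ∀ s : ℂ, AnalyticAt ℂ (fun s : ℂ => (s + A) ^ 2) s := fun s => by fun_prop
  have hco : ∀ (g : ℂ → ℂ) (s : ℂ), AnalyticAt ℂ g ((s + A) ^ 2) →
      AnalyticAt ℂ (fun s => g ((s + A) ^ 2)) s := fun g s hg =>
    AnalyticAt.comp (g := g) (f := fun s : ℂ => (s + A) ^ 2) hg (hsq s)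
  have hne : ∀ s ∈ Hyp A θ, s ∉ Z → ∀ β ∈ Z, (s + A) ^ 2 ≠ mu A β := fun s hs hsZ β hβ h0 => by
    have h1 := mu_inj hθ hs (hZ β hβ).1 h0
    exact hsZ (h1 ▸ hβ)
  refine ⟨fun s => K ((s + A) ^ 2) + pp Z (mu A) N d ((s + A) ^ 2), fun s hs => ?_,
    fun s hs hsZ => ?_, fun s hs hσs => ?_⟩
  · exact ((hco K s (hKo _ ((W_iff hθ).1 hs).2)).meromorphicAt).fun_add
      (MeromorphicAt.comp_analyticAt (f := pp Z (mu A) N d) (g := fun s : ℂ => (s + A) ^ 2)
        (pp_mer ((s + A) ^ 2)) (hsq s))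
  · exact (hco K s (hKo _ ((W_iff hθ).1 hs).2)).fun_add (hco _ s (pp_an (hne s hs hsZ)))
  · have h1 := hK2 (s + A) hs (by rw [Complex.add_re, Complex.ofReal_re]; linarith)
      (hne s hs fun hsZ => by linarith [(hZ s hsZ).2])
    simp only
    rw [h1, ll_shift, add_sub_cancel_right]

/-- **the criterion for regions** -/
theorem mer_crit (D : GD x c δ σ) [Countable ι] {A : ℝ} (hA : 0 ≤ A) (hθ : 0 ≤ θ) :
    (∃ F : ℂ → ℂ, MeromorphicOn F (Hyp A θ) ∧
      {s : ℂ | s ∈ Hyp A θ ∧ meromorphicOrderAt F s < 0}.Finite ∧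
      ∀ s ∈ Hyp A θ, σ < s.re → F s = ll x c s) ↔ HasM x c σ A θ := by
  constructor
  · rintro ⟨F, h1, h2, h3⟩
    obtain ⟨N, d, h4, h5⟩ := mer_ex D hA hθ h1 h2 h3
    exact ⟨_, N, d, h4, h5⟩
  · rintro ⟨Z, N, d, h1, h2⟩
    obtain ⟨F, h3, h4, h5⟩ := mer_of D hA hθ h1 h2
    refine ⟨F, h3, Z.finite_toSet.subset fun s hs => ?_, h5⟩
    by_contra h6
    exact absurd hs.2 (not_lt.2 (h4 s hs.1 h6).meromorphicOrderAt_nonneg)

/-- **from the plane to the expansions** -/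
theorem mer_all (D : GD x c δ σ) [Countable ι] {f : ℂ → ℂ} (hf : MeromorphicOn f univ) {σ' : ℝ}
    (he : ∀ s : ℂ, σ' < s.re → f s = ll x c s) {A : ℝ} (hA : 0 ≤ A) :
    {s : ℂ | s ∈ Hyp A 0 ∧ meromorphicOrderAt f s < 0}.Finite ∧ HasM x c σ A 0 := by
  set σ₂ : ℝ := max σ σ' with hσ₂
  have hs1 : σ ≤ σ₂ := le_max_left _ _
  have hs2 : σ' ≤ σ₂ := le_max_right _ _
  have hσ0 := D.σ0
  have hfin : {s : ℂ | s ∈ Hyp A 0 ∧ meromorphicOrderAt f s < 0}.Finite := by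
    set R : ℝ := (A + σ₂) + (σ₂ + A) with hR
    have hB : IsCompact (Metric.closedBall (0 : ℂ) R) := isCompact_closedBall _ _
    have hm : MeromorphicOn f (Metric.closedBall (0 : ℂ) R) := fun z _ => hf z (mem_univ z)
    refine ((MeromorphicOn.divisor f (Metric.closedBall (0 : ℂ) R)).finiteSupport hB).subset
      fun s hs => ?_
    obtain ⟨h1, h2⟩ := hs
    rw [Hyp_zero] at h1
    have h3 : s.re ≤ σ₂ := by
      by_contra h4
      push Not at h4
      have h5 : AnalyticAt ℂ (ll x c) s := an_of (U := {z : ℂ | σ < z.re})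
        (isOpen_lt continuous_const Complex.continuous_re) (fun z hz => D.ll_diff hz)
        (hs1.trans_lt h4)
      refine absurd h2 (not_lt.2 (ord_nonneg h5 ?_))
      refine Eventually.filter_mono nhdsWithin_le_nhds ?_
      have ho : IsOpen {z : ℂ | σ₂ < z.re} := isOpen_lt continuous_const Complex.continuous_re
      filter_upwards [ho.mem_nhds h4] with z hz
      exact he z (hs2.trans_lt hz)
    have h4 : |s.im| < s.re + A := h1
    have h6 : s ∈ Metric.closedBall (0 : ℂ) R := by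
      rw [Metric.mem_closedBall, dist_zero_right]
      refine (Complex.norm_le_abs_re_add_abs_im s).trans ?_
      have h5 : |s.re| ≤ A + σ₂ := by
        rw [abs_le]
        have := abs_nonneg s.im
        constructor <;> linarith
      rw [hR]
      linarith
    change MeromorphicOn.divisor f (Metric.closedBall (0 : ℂ) R) s ≠ 0
    rw [hm.divisor_apply h6]
    intro h8
    rcases WithTop.untop₀_eq_zero.1 h8 with h9 | h9
    · rw [h9] at h2
      exact absurd h2 (lt_irrefl _)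
    · rw [h9] at h2
      exact absurd h2 (by simp)
  refine ⟨hfin, ?_⟩
  obtain ⟨N, d, h4, h5⟩ := mer_ex D hA le_rfl (fun z _ => hf z (mem_univ z)) hfin
    (fun s _ hs => he s hs)
  exact ⟨_, N, d, h4, h5⟩

/-- **from the expansions to the plane** -/
theorem mer_plane (D : GD x c δ σ) [Countable ι]
    (h : ∀ A₀ : ℝ, ∃ A : ℝ, A₀ ≤ A ∧ 0 ≤ A ∧ HasM x c σ A 0) :
    ∃ f : ℂ → ℂ, MeromorphicOn f univ ∧ ∀ s : ℂ, σ < s.re → f s = ll x c s := by
  classical
  have hσ0 := D.σ0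
  have hla : ∀ s : ℂ, σ < s.re → AnalyticAt ℂ (ll x c) s := fun s hs =>
    an_of (isOpen_lt continuous_const Complex.continuous_re) (fun z hz => D.ll_diff hz) hs
  choose A hA hA0 h1 using fun n : ℕ => h n
  choose F hF1 hF2 hF3 using fun n => (mer_crit D (hA0 n) le_rfl).2 (h1 n)
  have hsub : ∀ n : ℕ, Q n ⊆ Hyp (A n) 0 := fun n => by
    rw [Hyp_zero]
    exact Q_mono (hA n)
  have hm : ∀ n : ℕ, MeromorphicOn (F n) (Q n) := fun n s hs => hF1 n s (hsub n hs)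
  set g : ℕ → ℂ → ℂ := fun n => toMeromorphicNFOn (F n) (Q n) with hg
  have hgn : ∀ n : ℕ, ∀ s ∈ Q (n : ℝ), MeromorphicNFAt (g n) s := fun n s hs =>
    meromorphicNFOn_toMeromorphicNFOn (F n) (Q n) hs
  have hgF : ∀ n : ℕ, ∀ s ∈ Q (n : ℝ), F n =ᶠ[𝓝[≠] s] g n := fun n s hs =>
    ((hm n).toMeromorphicNFOn_eq_self_on_nhdsNE hs).symm
  have hFF : ∀ n m : ℕ, n ≤ m → ∀ s ∈ Q (n : ℝ), F n =ᶠ[𝓝[≠] s] F m := by
    intro n m hnm s hs
    have hQ : Q (n : ℝ) ⊆ Q (m : ℝ) := Q_mono (by exact_mod_cast hnm)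
    have hr : ((σ + 1 : ℝ) : ℂ) ∈ Q (n : ℝ) := by
      change |((σ + 1 : ℝ) : ℂ).im| < ((σ + 1 : ℝ) : ℂ).re + n
      rw [Complex.ofReal_im, Complex.ofReal_re, abs_zero]
      positivity
    have hr2 : σ < ((σ + 1 : ℝ) : ℂ).re := by
      rw [Complex.ofReal_re]
      linarith
    refine mer_ident (Q_convex (n : ℝ)) (hm n) (fun z hz => hm m z (hQ hz)) hr ?_ hs
    refine Eventually.filter_mono nhdsWithin_le_nhds ?_
    have ho : IsOpen {z : ℂ | σ < z.re} := isOpen_lt continuous_const Complex.continuous_re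
    filter_upwards [ho.mem_nhds hr2, (Q_open (n : ℝ)).mem_nhds hr] with z hz hz1
    rw [hF3 n z (hsub n hz1) hz, hF3 m z (hsub m (hQ hz1)) hz]
  have hgg : ∀ n m : ℕ, n ≤ m → ∀ s ∈ Q (n : ℝ), g n s = g m s := by
    intro n m hnm s hs
    have hQ : Q (n : ℝ) ⊆ Q (m : ℝ) := Q_mono (by exact_mod_cast hnm)
    have h2 : g n =ᶠ[𝓝[≠] s] g m :=
      ((hgF n s hs).symm.trans (hFF n m hnm s hs)).trans (hgF m s (hQ hs))
    exact (((hgn n s hs).eventuallyEq_nhdsNE_iff_eventuallyEq_nhds (hgn m s (hQ hs))).1 h2).eq_of_nhds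
  choose N hN using exists_Q
  have hany : ∀ n : ℕ, ∀ s ∈ Q (n : ℝ), g (N s) s = g n s := by
    intro n s hs
    rcases le_total (N s) n with h3 | h3
    · exact hgg _ _ h3 s (hN s)
    · exact (hgg _ _ h3 s hs).symm
  refine ⟨fun s => g (N s) s, fun s _ => ?_, fun s hs => ?_⟩
  · refine (hgn (N s) s (hN s)).meromorphicAt.congr ?_
    refine Eventually.filter_mono nhdsWithin_le_nhds ?_
    filter_upwards [(Q_open (N s : ℝ)).mem_nhds (hN s)] with z hz
    exact (hany _ z hz).symm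
  · have h2 : g (N s) =ᶠ[𝓝[≠] s] ll x c := by
      refine (hgF (N s) s (hN s)).symm.trans ?_
      refine Eventually.filter_mono nhdsWithin_le_nhds ?_
      have ho : IsOpen {z : ℂ | σ < z.re} := isOpen_lt continuous_const Complex.continuous_re
      filter_upwards [ho.mem_nhds hs, (Q_open (N s : ℝ)).mem_nhds (hN s)] with z hz hz1
      exact hF3 _ z (hsub _ hz1) hz
    exact (((hgn (N s) s (hN s)).eventuallyEq_nhdsNE_iff_eventuallyEq_nhds
      (hla s hs).meromorphicNFAt).1 h2).eq_of_nhds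

end Pool.Agent.V1167.GL
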