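import Pool.Agent.V1167.GL.Mer3

/-!
# Gaussian sums of an ordinary Dirichlet series and its meromorphic continuation
-/

set_option autoImplicit false

open MeasureTheory Filter Topology Set Complex

namespace Pool.Agent.V1167.GL

open Pool.Agent.V11291.GS
open Pool.Agent.V11291.ME (an_of)

/-- the expansion of the Gaussian sums of the coefficients, with polynomials -/
def PEx (a : ℕ → ℂ) (A θ : ℝ) (Z : Finset ℂ) (P : ℂ → Polynomial ℂ) : Prop :=
  ∀ ε : ℝ, 0 < ε → ∃ C : ℝ, ∀ᶠ T : ℝ in atTop,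
    ‖gs a A T - ∑ β ∈ Z, T * (P β).eval (T : ℂ) * exp ((β + A) ^ 2 * T)‖ ≤
      C * Real.exp ((θ + ε) * T)

lemma pex_of {a : ℕ → ℂ} {A θ : ℝ} {Z : Finset ℂ} {N : ℕ} {d : ℂ → ℕ → ℂ}
    {P : ℂ → Polynomial ℂ} (hP : ∀ β ∈ Z, ∀ T : ℂ, (P β).eval T = ∑ k ∈ Finset.range N, d β k * T ^ k) :
    PEx a A θ Z P ↔ Sub (fun T => G xn (cA xn (cn a) A) T - ex Z (mu A) N d T) θ := by
  unfold PEx Sub
  refine forall_congr' fun ε => forall_congr' fun _ => exists_congr fun C => ?_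
  refine eventually_congr ?_
  filter_upwards [eventually_gt_atTop 0] with T hT
  have h1 : ∑ β ∈ Z, (T : ℂ) * (P β).eval (T : ℂ) * exp ((β + A) ^ 2 * T) = ex Z (mu A) N d T := by
    unfold ex mu
    refine Finset.sum_congr rfl fun β hβ => ?_
    rw [hP β hβ, max_eq_left hT.le, Finset.mul_sum, Finset.sum_mul]
    refine Finset.sum_congr rfl fun k _ => ?_
    rw [pow_succ]
    ring
  rw [gs_eq, h1]

/-- some expansion with polynomials -/
def HasP (a : ℕ → ℂ) (σ A θ : ℝ) : Prop :=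
  ∃ (Z : Finset ℂ) (P : ℂ → Polynomial ℂ), (∀ β ∈ Z, β ∈ Hyp A θ ∧ β.re ≤ σ) ∧ PEx a A θ Z P

lemma hasM_iff (a : ℕ → ℂ) (σ A θ : ℝ) : HasM xn (cn a) σ A θ ↔ HasP a σ A θ := by
  classical
  constructor
  · rintro ⟨Z, N, d, h1, h2⟩
    refine ⟨Z, fun β => ∑ k ∈ Finset.range N, Polynomial.C (d β k) * Polynomial.X ^ k, h1,
      (pex_of fun β _ T => ?_).2 h2⟩
    simp [Polynomial.eval_finsetSum]
  · rintro ⟨Z, P, h1, h2⟩
    set N : ℕ := Z.sup (fun β => (P β).natDegree) + 1 with hN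
    refine ⟨Z, N, fun β k => (P β).coeff k, h1, (pex_of fun β hβ T => ?_).1 h2⟩
    refine Polynomial.eval_eq_sum_range' ?_ T
    rw [hN, Nat.lt_succ_iff]
    exact Finset.le_sup (f := fun β => (P β).natDegree) hβ

lemma ord_const {F : ℂ → ℂ} {s : ℂ} (hF : MeromorphicAt F s) (k : ℂ)
    (h : meromorphicOrderAt (fun s => F s + k) s < 0) : meromorphicOrderAt F s < 0 := by
  by_contra h0
  push Not at h0
  have h1 : MeromorphicAt (fun _ : ℂ => k) s := by fun_prop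
  have h2 := meromorphicOrderAt_add hF h1
  have h3 : (0 : WithTop ℤ) ≤ meromorphicOrderAt (fun _ : ℂ => k) s :=
    (analyticAt_const (v := k)).meromorphicOrderAt_nonneg
  exact absurd h (not_lt.2 ((le_min h0 h3).trans h2))

/-- **the criterion for regions** -/
theorem dir_mer {a : ℕ → ℂ} {σ : ℝ} (hσ : 0 < σ) (ha : LSeriesSummable a σ) {A θ : ℝ}
    (hA : 0 ≤ A) (hθ : 0 ≤ θ) :
    (∃ F : ℂ → ℂ, MeromorphicOn F (Hyp A θ) ∧
      {s : ℂ | s ∈ Hyp A θ ∧ meromorphicOrderAt F s < 0}.Finite ∧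
      ∀ s ∈ Hyp A θ, σ < s.re → F s = LSeries a s) ↔ HasP a σ A θ := by
  have D := gd_of hσ ha
  have hsum : ∀ s : ℂ, σ < s.re → LSeriesSummable a s := fun s hs =>
    ha.of_re_le_re (by simpa using hs.le)
  rw [← hasM_iff, ← mer_crit D hA hθ]
  constructor
  · rintro ⟨F, h1, h2, h3⟩
    have h1' : MeromorphicOn (fun s => F s + -a 1) (Hyp A θ) := fun s hs =>
      (h1 s hs).fun_add (by fun_prop)
    refine ⟨fun s => F s + -a 1, h1', h2.subset fun s hs => ⟨hs.1, ord_const (h1 s hs.1) _ hs.2⟩,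
      fun s hs hσs => ?_⟩
    simp only
    rw [h3 s hs hσs, ls_eq (hsum s hσs)]
    ring
  · rintro ⟨F, h1, h2, h3⟩
    have h1' : MeromorphicOn (fun s => F s + a 1) (Hyp A θ) := fun s hs =>
      (h1 s hs).fun_add (by fun_prop)
    refine ⟨fun s => F s + a 1, h1', h2.subset fun s hs => ⟨hs.1, ord_const (h1 s hs.1) _ hs.2⟩,
      fun s hs hσs => ?_⟩
    simp only
    rw [h3 s hs hσs, ls_eq (hsum s hσs)]
    ring

/-- **the criterion for regions, with given places of the poles** -/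
theorem dir_mer_Z {a : ℕ → ℂ} {σ : ℝ} (hσ : 0 < σ) (ha : LSeriesSummable a σ) {A θ : ℝ}
    (hA : 0 ≤ A) (hθ : 0 ≤ θ) {Z : Finset ℂ} (hZ : ∀ β ∈ Z, β ∈ Hyp A θ ∧ β.re ≤ σ) :
    (∃ F : ℂ → ℂ, MeromorphicOn F (Hyp A θ) ∧ (∀ s ∈ Hyp A θ, s ∉ Z → AnalyticAt ℂ F s) ∧
      ∀ s ∈ Hyp A θ, σ < s.re → F s = LSeries a s) ↔ ∃ P : ℂ → Polynomial ℂ, PEx a A θ Z P := by
  classical
  have D := gd_of hσ ha
  have hsum : ∀ s : ℂ, σ < s.re → LSeriesSummable a s := fun s hs =>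
    ha.of_re_le_re (by simpa using hs.le)
  constructor
  · rintro ⟨F, h1, h2, h3⟩
    have h1' : MeromorphicOn (fun s => F s + -a 1) (Hyp A θ) := fun s hs =>
      (h1 s hs).fun_add (by fun_prop)
    have hsub : {s : ℂ | s ∈ Hyp A θ ∧ meromorphicOrderAt (fun s => F s + -a 1) s < 0} ⊆ Z := by
      intro s hs
      by_contra h6
      exact absurd (ord_const (h1 s hs.1) _ hs.2)
        (not_lt.2 (h2 s hs.1 h6).meromorphicOrderAt_nonneg)
    have hfin := Z.finite_toSet.subset hsub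
    obtain ⟨N, d, h4, h5⟩ := mer_ex D hA hθ h1' hfin (σ' := σ) fun s hs hσs => by
      rw [h3 s hs hσs, ls_eq (hsum s hσs)]
      ring
    set P : ℂ → Polynomial ℂ := fun β => if β ∈ hfin.toFinset then
      ∑ k ∈ Finset.range N, Polynomial.C (d β k) * Polynomial.X ^ k else 0 with hP
    have h6 : PEx a A θ hfin.toFinset P := by
      refine (pex_of fun β hβ T => ?_).2 h5
      rw [hP]
      simp only
      rw [if_pos hβ]
      simp [Polynomial.eval_finsetSum]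
    refine ⟨P, fun ε hε => ?_⟩
    obtain ⟨C, hC⟩ := h6 ε hε
    refine ⟨C, ?_⟩
    filter_upwards [hC] with T hT
    have h7 : ∑ β ∈ hfin.toFinset, (T : ℂ) * (P β).eval (T : ℂ) * exp ((β + A) ^ 2 * T) =
        ∑ β ∈ Z, (T : ℂ) * (P β).eval (T : ℂ) * exp ((β + A) ^ 2 * T) := by
      refine Finset.sum_subset (fun β hβ => ?_) fun β _ hβ => ?_
      · exact hsub (hfin.mem_toFinset.1 hβ)
      · rw [hP]
        simp only
        rw [if_neg hβ]
        simp
    rw [← h7]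
    exact hT
  · rintro ⟨P, h1⟩
    set N : ℕ := Z.sup (fun β => (P β).natDegree) + 1 with hN
    have h2 := (pex_of (a := a) (A := A) (θ := θ) (N := N) (d := fun β k => (P β).coeff k)
      fun β hβ T => Polynomial.eval_eq_sum_range' (by
        rw [hN, Nat.lt_succ_iff]
        exact Finset.le_sup (f := fun β => (P β).natDegree) hβ) T).1 h1
    obtain ⟨F, h3, h4, h5⟩ := mer_of D hA hθ hZ h2
    refine ⟨fun s => F s + a 1, fun s hs => (h3 s hs).fun_add (by fun_prop),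
      fun s hs hsZ => (h4 s hs hsZ).fun_add analyticAt_const, fun s hs hσs => ?_⟩
    simp only
    rw [h5 s hs hσs, ls_eq (hsum s hσs)]
    ring

/-- **the criterion for the plane** -/
theorem dir_mer_plane {a : ℕ → ℂ} {σ : ℝ} (hσ : 0 < σ) (ha : LSeriesSummable a σ) :
    [(∃ F : ℂ → ℂ, MeromorphicOn F univ ∧ ∃ σ' : ℝ, ∀ s : ℂ, σ' < s.re → F s = LSeries a s),
      (∃ F : ℂ → ℂ, MeromorphicOn F univ ∧ ∀ s : ℂ, σ < s.re → F s = LSeries a s),
      (∀ A : ℝ, 0 ≤ A → HasP a σ A 0),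
      (∀ A₀ : ℝ, ∃ A : ℝ, A₀ ≤ A ∧ 0 ≤ A ∧ HasP a σ A 0)].TFAE := by
  have D := gd_of hσ ha
  have hsum : ∀ s : ℂ, σ < s.re → LSeriesSummable a s := fun s hs =>
    ha.of_re_le_re (by simpa using hs.le)
  tfae_have 2 → 1 := fun ⟨F, h1, h2⟩ => ⟨F, h1, σ, h2⟩
  tfae_have 1 → 3 := by
    rintro ⟨F, h1, σ', h2⟩ A hA
    rw [← hasM_iff]
    refine (mer_all D (f := fun s => F s + -a 1) (fun s _ => (h1 s (mem_univ s)).fun_add
      (by fun_prop)) (σ' := max σ σ') (fun s hs => ?_) hA).2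
    have e1 : σ < s.re := (le_max_left _ _).trans_lt hs
    have e2 : σ' < s.re := (le_max_right _ _).trans_lt hs
    rw [h2 s e2, ls_eq (hsum s e1)]
    ring
  tfae_have 3 → 4 := fun h A₀ =>
    ⟨max A₀ 0, le_max_left _ _, le_max_right _ _, h _ (le_max_right _ _)⟩
  tfae_have 4 → 2 := by
    intro h
    obtain ⟨f, h1, h2⟩ := mer_plane D fun A₀ => by
      obtain ⟨A, e1, e2, e3⟩ := h A₀
      exact ⟨A, e1, e2, (hasM_iff a σ A 0).2 e3⟩
    refine ⟨fun s => f s + a 1, fun s _ => (h1 s (mem_univ s)).fun_add (by fun_prop),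
      fun s hs => ?_⟩
    simp only
    rw [h2 s hs, ls_eq (hsum s hs)]
    ring
  tfae_finish

end Pool.Agent.V1167.GL
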