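import Pool.Agent.V1167.GL.Mer4

/-!
# Gaussian sums of an ordinary Dirichlet series and its meromorphic continuation: the poles occur
-/

set_option autoImplicit false

open MeasureTheory Filter Topology Set Complex

namespace Pool.Agent.V1167.GL

open Pool.Agent.V11291.GS

/-- a point whose polynomial vanishes is not a pole -/
theorem pex_zero {a : ℕ → ℂ} {σ : ℝ} (hσ : 0 < σ) (ha : LSeriesSummable a σ) {A θ : ℝ}
    (hA : 0 ≤ A) (hθ : 0 ≤ θ) {Z : Finset ℂ} (hZ : ∀ β ∈ Z, β ∈ Hyp A θ ∧ β.re ≤ σ)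
    {F : ℂ → ℂ} (hF : MeromorphicOn F (Hyp A θ))
    (he : ∀ s ∈ Hyp A θ, σ < s.re → F s = LSeries a s) {P : ℂ → Polynomial ℂ}
    (hP : PEx a A θ Z P) {β : ℂ} (hβ : β ∈ Z) (h0 : P β = 0) : 0 ≤ meromorphicOrderAt F β := by
  classical
  have h1 : PEx a A θ (Z.erase β) P := by
    intro ε hε
    obtain ⟨C, hC⟩ := hP ε hε
    refine ⟨C, ?_⟩
    filter_upwards [hC] with T hT
    rw [Finset.sum_erase _ (by rw [h0]; simp)]
    exact hT
  obtain ⟨G, h2, h3, h4⟩ := (dir_mer_Z hσ ha hA hθ (Z := Z.erase β)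
    (fun γ hγ => hZ γ (Finset.mem_of_mem_erase hγ))).2 ⟨P, h1⟩
  set r : ℝ := max σ (θ + 1) + 1 with hr
  have hr1 : σ < r := (le_max_left σ (θ + 1)).trans_lt (lt_add_one _)
  have hr2 : θ + 1 < r := (le_max_right σ (θ + 1)).trans_lt (lt_add_one _)
  have hrW : (r : ℂ) ∈ Hyp A θ := by
    change ((r : ℝ) : ℂ) + (A : ℂ) ∈ W θ
    rw [← Complex.ofReal_add]
    exact W_real hθ (by linarith) (by nlinarith)
  have hrr : σ < ((r : ℝ) : ℂ).re := by rwa [Complex.ofReal_re]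
  have h5 : F =ᶠ[𝓝[≠] (r : ℂ)] G := by
    refine Eventually.filter_mono nhdsWithin_le_nhds ?_
    have ho : IsOpen {z : ℂ | σ < z.re} := isOpen_lt continuous_const Complex.continuous_re
    filter_upwards [(Hyp_open A θ).mem_nhds hrW, ho.mem_nhds hrr] with z hz1 hz2
    rw [he z hz1 hz2, h4 z hz1 hz2]
  have h6 : F =ᶠ[𝓝[≠] β] G := mer_ident (Hyp_convex A θ) hF h2 hrW h5 (hZ β hβ).1
  exact ord_nonneg (h3 β (hZ β hβ).1 (by simp)) h6

end Pool.Agent.V1167.GL
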