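import Pool.Agent.V1167.GL.Abs

/-!
# Principal parts, and their Laplace transforms
-/

set_option autoImplicit false

open MeasureTheory Filter Topology Set Complex

namespace Pool.Agent.V1167.GL

open Pool.Agent.V11291.GS

/-- the exponential polynomial `∑ d_{β,k} T^(k+1) exp(μ(β) T)`, `0` for `T ≤ 0` -/
noncomputable def ex (Z : Finset ℂ) (μ : ℂ → ℂ) (N : ℕ) (d : ℂ → ℕ → ℂ) (T : ℝ) : ℂ :=
  ∑ β ∈ Z, ∑ k ∈ Finset.range N, d β k * (((max T 0 : ℝ) : ℂ) ^ (k + 1) * exp (μ β * T))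

/-- its transform -/
noncomputable def pp (Z : Finset ℂ) (μ : ℂ → ℂ) (N : ℕ) (d : ℂ → ℕ → ℂ) (v : ℂ) : ℂ :=
  ∑ β ∈ Z, ∑ k ∈ Finset.range N, d β k * (k.factorial : ℂ) * ((v - μ β) ^ (k + 1))⁻¹

variable {Z : Finset ℂ} {μ : ℂ → ℂ} {N : ℕ} {d : ℂ → ℕ → ℂ}

lemma ex_cont : Continuous (ex Z μ N d) := by
  unfold ex
  fun_prop

lemma ex_zero {T : ℝ} (hT : T ≤ 0) : ex Z μ N d T = 0 := by
  unfold ex
  rw [max_eq_right hT]
  refine Finset.sum_eq_zero fun β _ => Finset.sum_eq_zero fun k _ => ?_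
  simp

/-- the quotient by `T` -/
noncomputable def eq1 (Z : Finset ℂ) (μ : ℂ → ℂ) (N : ℕ) (d : ℂ → ℕ → ℂ) (T : ℝ) : ℂ :=
  ∑ β ∈ Z, ∑ k ∈ Finset.range N, d β k * ((T : ℂ) ^ k * exp (μ β * T))

lemma ex_div {T : ℝ} (hT : 0 < T) : ex Z μ N d T / T = eq1 Z μ N d T := by
  have h0 : (T : ℂ) ≠ 0 := by exact_mod_cast hT.ne'
  unfold ex eq1
  rw [max_eq_left hT.le, Finset.sum_div]
  refine Finset.sum_congr rfl fun β _ => ?_
  rw [Finset.sum_div]
  refine Finset.sum_congr rfl fun k _ => ?_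
  rw [pow_succ]
  field_simp

lemma one_bd (μ : ℂ) (k : ℕ) : Bd (fun T : ℝ => (T : ℂ) ^ k * exp (μ * T)) k.factorial (μ.re + 1) where
  meas := Continuous.aestronglyMeasurable (by fun_prop)
  K0 := by positivity
  bd := fun t ht => by
    rw [norm_mul, norm_pow, Complex.norm_real, Real.norm_of_nonneg ht.le, Complex.norm_exp,
      Complex.re_mul_ofReal]
    have h1 := Real.pow_div_factorial_le_exp t ht.le k
    rw [div_le_iff₀ (by positivity)] at h1
    calc t ^ k * Real.exp (μ.re * t) ≤ (Real.exp t * k.factorial) * Real.exp (μ.re * t) := by gcongr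
      _ = k.factorial * (Real.exp (μ.re * t) * Real.exp t) := by ring
      _ = _ := by
        rw [← Real.exp_add]
        congr 2
        ring

lemma pow_lap (k : ℕ) {w : ℂ} (hw : 1 < w.re) :
    lap (fun T : ℝ => (T : ℂ) ^ k) w = (k.factorial : ℂ) * (w ^ (k + 1))⁻¹ := by
  have hB : Bd (fun T : ℝ => (T : ℂ) ^ k) k.factorial 1 := by
    have h1 := one_bd 0 k
    simpa using h1
  refine ident (U := {w : ℂ | 1 < w.re}) (isOpen_lt continuous_const Complex.continuous_re)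
    (convex_halfSpace_re_gt _) (f := lap (fun T : ℝ => (T : ℂ) ^ k))
    (g := fun w => (k.factorial : ℂ) * (w ^ (k + 1))⁻¹)
    (fun z hz => hB.diff hz) (fun z hz => ?_) (R := 1) (fun r hr => ⟨by simpa using hr, ?_⟩) w hw
  · refine DifferentiableAt.const_mul (DifferentiableAt.fun_inv (by fun_prop) ?_) _
    refine pow_ne_zero _ fun h0 => ?_
    have h2 : 1 < z.re := hz
    rw [h0, Complex.zero_re] at h2
    linarith
  · have h1 := Complex.integral_cpow_mul_exp_neg_mul_Ioi (a := ((k + 1 : ℕ) : ℂ)) (r := r)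
      (by rw [Complex.natCast_re]; positivity) (by linarith)
    have h2 : Complex.Gamma ((k + 1 : ℕ) : ℂ) = k.factorial := by
      push_cast
      exact Complex.Gamma_nat_eq_factorial k
    rw [h2, Complex.cpow_natCast, one_div, inv_pow, mul_comm] at h1
    rw [← h1]
    unfold lap
    refine setIntegral_congr_fun measurableSet_Ioi fun t ht => ?_
    have e1 : (((k + 1 : ℕ) : ℂ) - 1) = (k : ℂ) := by push_cast; ring
    simp only
    rw [e1, Complex.cpow_natCast, mul_comm]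

lemma one_lap {μ v : ℂ} (hv : μ.re + 1 < v.re) (k : ℕ) :
    lap (fun T : ℝ => (T : ℂ) ^ k * exp (μ * T)) v = (k.factorial : ℂ) * ((v - μ) ^ (k + 1))⁻¹ := by
  rw [← pow_lap k (w := v - μ) (by rw [Complex.sub_re]; linarith)]
  unfold lap
  refine setIntegral_congr_fun measurableSet_Ioi fun t ht => ?_
  simp only
  rw [mul_left_comm, ← Complex.exp_add, mul_comm]
  congr 2
  ring

lemma one_int {μ v : ℂ} (hv : μ.re + 1 < v.re) (k : ℕ) :
    IntegrableOn (fun t : ℝ => exp (-(v * t)) * ((t : ℂ) ^ k * exp (μ * t))) (Ioi 0) :=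
  (one_bd μ k).int hv

lemma ex_int {v : ℂ} (hv : ∀ β ∈ Z, (μ β).re + 1 < v.re) :
    IntegrableOn (fun t : ℝ => exp (-(v * t)) * (ex Z μ N d t / t)) (Ioi 0) := by
  have h1 : IntegrableOn (fun t : ℝ => ∑ β ∈ Z, ∑ k ∈ Finset.range N,
      d β k * (exp (-(v * t)) * ((t : ℂ) ^ k * exp (μ β * t)))) (Ioi 0) :=
    integrable_finsetSum _ fun β hβ => integrable_finsetSum _ fun k _ =>
      (one_int (hv β hβ) k).const_mul _
  refine h1.congr_fun (fun t ht => ?_) measurableSet_Ioi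
  simp only
  rw [ex_div ht]
  unfold eq1
  rw [Finset.mul_sum]
  refine Finset.sum_congr rfl fun β _ => ?_
  rw [Finset.mul_sum]
  refine Finset.sum_congr rfl fun k _ => ?_
  ring

lemma ex_lap {v : ℂ} (hv : ∀ β ∈ Z, (μ β).re + 1 < v.re) :
    lap (fun t => ex Z μ N d t / t) v = pp Z μ N d v := by
  have h1 : lap (fun t => ex Z μ N d t / t) v = ∫ t in Ioi (0 : ℝ), ∑ β ∈ Z,
      ∑ k ∈ Finset.range N, d β k * (exp (-(v * t)) * ((t : ℂ) ^ k * exp (μ β * t))) := by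
    unfold lap
    refine setIntegral_congr_fun measurableSet_Ioi fun t ht => ?_
    simp only
    rw [ex_div ht]
    unfold eq1
    rw [Finset.mul_sum]
    refine Finset.sum_congr rfl fun β _ => ?_
    rw [Finset.mul_sum]
    refine Finset.sum_congr rfl fun k _ => ?_
    ring
  rw [h1, integral_finsetSum _ fun β hβ => integrable_finsetSum _ fun k _ =>
      (one_int (hv β hβ) k).const_mul _]
  unfold pp
  refine Finset.sum_congr rfl fun β hβ => ?_
  rw [integral_finsetSum _ fun k _ => (one_int (hv β hβ) k).const_mul _]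
  refine Finset.sum_congr rfl fun k _ => ?_
  rw [integral_const_mul]
  have h2 := one_lap (μ := μ β) (v := v) (hv β hβ) k
  unfold lap at h2
  rw [h2]
  ring

lemma ex_bd {τ : ℝ} (hτ : ∀ β ∈ Z, (μ β).re + 1 ≤ τ) :
    ∃ K, Bd (fun t => ex Z μ N d t / t) K τ := by
  refine ⟨∑ β ∈ Z, ∑ k ∈ Finset.range N, ‖d β k‖ * k.factorial, ?_, ?_, fun t ht => ?_⟩
  · have h1 : AEStronglyMeasurable (eq1 Z μ N d) (volume.restrict (Ioi 0)) := by
      refine Continuous.aestronglyMeasurable ?_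
      unfold eq1
      fun_prop
    refine h1.congr ?_
    filter_upwards [ae_restrict_mem measurableSet_Ioi] with t ht
    exact (ex_div ht).symm
  · exact Finset.sum_nonneg fun β _ => Finset.sum_nonneg fun k _ => by positivity
  · have ht0 : (0 : ℝ) < t := ht
    rw [ex_div ht]
    unfold eq1
    rw [Finset.sum_mul]
    refine (norm_sum_le _ _).trans (Finset.sum_le_sum fun β hβ => ?_)
    rw [Finset.sum_mul]
    refine (norm_sum_le _ _).trans (Finset.sum_le_sum fun k _ => ?_)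
    rw [norm_mul, mul_assoc]
    refine mul_le_mul_of_nonneg_left (((one_bd (μ β) k).bd t ht).trans ?_) (norm_nonneg _)
    refine mul_le_mul_of_nonneg_left (Real.exp_le_exp.2 ?_) (by positivity)
    exact mul_le_mul_of_nonneg_right (hτ β hβ) ht0.le

/-- the derivative of the transform decays -/
lemma pp_deriv : ∃ B R : ℝ, 0 ≤ B ∧ 1 ≤ R ∧ ∀ v : ℂ, R < ‖v‖ →
    DifferentiableAt ℂ (pp Z μ N d) v ∧ ‖deriv (pp Z μ N d) v‖ ≤ B * (‖v‖ ^ 2)⁻¹ := by
  set R : ℝ := 1 + 2 * ∑ β ∈ Z, ‖μ β‖ with hR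
  have hs : 0 ≤ ∑ β ∈ Z, ‖μ β‖ := Finset.sum_nonneg fun _ _ => norm_nonneg _
  set B : ℝ := ∑ β ∈ Z, ∑ k ∈ Finset.range N,
    ‖d β k * (k.factorial : ℂ)‖ * ((k + 1) * 2 ^ (k + 2)) with hB
  refine ⟨B, R, ?_, by rw [hR]; linarith, fun v hv => ?_⟩
  · exact Finset.sum_nonneg fun β _ => Finset.sum_nonneg fun k _ => by positivity
  have hv1 : 1 ≤ ‖v‖ := by
    have : 1 ≤ R := by rw [hR]; linarith
    linarith
  have hv0 : 0 < ‖v‖ := by linarith
  have hfar : ∀ β ∈ Z, ‖v‖ / 2 ≤ ‖v - μ β‖ := by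
    intro β hβ
    have h1 := Finset.single_le_sum (f := fun β => ‖μ β‖) (fun β _ => norm_nonneg _) hβ
    have h2 := norm_sub_norm_le v (μ β)
    rw [hR] at hv
    linarith
  have hne : ∀ β ∈ Z, v - μ β ≠ 0 := fun β hβ h0 => by
    have h1 := hfar β hβ
    rw [h0, norm_zero] at h1
    linarith
  have hd1 : ∀ β ∈ Z, ∀ k : ℕ, HasDerivAt (fun v : ℂ => d β k * (k.factorial : ℂ) *
      ((v - μ β) ^ (k + 1))⁻¹) (d β k * (k.factorial : ℂ) *
        (-(((k + 1 : ℕ) : ℂ) * (v - μ β) ^ k * 1) / ((v - μ β) ^ (k + 1)) ^ 2)) v := by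
    intro β hβ k
    have h1 : HasDerivAt (fun v : ℂ => (v - μ β) ^ (k + 1))
        (((k + 1 : ℕ) : ℂ) * (v - μ β) ^ k * 1) v := by
      have := ((hasDerivAt_id v).sub_const (μ β)).fun_pow (k + 1)
      simpa using this
    exact (h1.fun_inv (pow_ne_zero _ (hne β hβ))).const_mul _
  have hd : HasDerivAt (pp Z μ N d) (∑ β ∈ Z, ∑ k ∈ Finset.range N, d β k * (k.factorial : ℂ) *
      (-(((k + 1 : ℕ) : ℂ) * (v - μ β) ^ k * 1) / ((v - μ β) ^ (k + 1)) ^ 2)) v := by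
    unfold pp
    exact HasDerivAt.fun_sum fun β hβ => HasDerivAt.fun_sum fun k _ => hd1 β hβ k
  refine ⟨hd.differentiableAt, ?_⟩
  rw [hd.deriv, hB, Finset.sum_mul]
  refine (norm_sum_le _ _).trans (Finset.sum_le_sum fun β hβ => ?_)
  rw [Finset.sum_mul]
  refine (norm_sum_le _ _).trans (Finset.sum_le_sum fun k _ => ?_)
  rw [norm_mul, mul_assoc (‖d β k * (k.factorial : ℂ)‖)]
  refine mul_le_mul_of_nonneg_left ?_ (norm_nonneg _)
  have hw0 : 0 < ‖v - μ β‖ := norm_pos_iff.2 (hne β hβ)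
  rw [norm_div, norm_neg, norm_mul, norm_mul, norm_one, mul_one, norm_pow, norm_pow, norm_pow,
    Complex.norm_natCast]
  have e1 : ((k + 1 : ℕ) : ℝ) * ‖v - μ β‖ ^ k / (‖v - μ β‖ ^ (k + 1)) ^ 2 =
      (k + 1) * (‖v - μ β‖ ^ (k + 2))⁻¹ := by
    push_cast
    field_simp
    ring
  rw [e1, mul_assoc]
  refine mul_le_mul_of_nonneg_left ?_ (by positivity)
  have e2 : (‖v‖ / 2) ^ (k + 2) ≤ ‖v - μ β‖ ^ (k + 2) :=
    pow_le_pow_left₀ (by positivity) (hfar β hβ) _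
  have e3 : ‖v‖ ^ 2 ≤ ‖v‖ ^ (k + 2) := pow_le_pow_right₀ hv1 (by omega)
  have e4 : ‖v‖ ^ 2 / 2 ^ (k + 2) ≤ ‖v - μ β‖ ^ (k + 2) := by
    refine le_trans ?_ e2
    rw [div_pow]
    gcongr
  calc (‖v - μ β‖ ^ (k + 2))⁻¹ ≤ (‖v‖ ^ 2 / 2 ^ (k + 2))⁻¹ := by
        gcongr
    _ = _ := by rw [inv_div, div_eq_mul_inv]

/-- away from the points the transform is analytic -/
lemma pp_an {v : ℂ} (hv : ∀ β ∈ Z, v ≠ μ β) : AnalyticAt ℂ (pp Z μ N d) v := by
  unfold pp
  refine Finset.analyticAt_fun_sum _ fun β hβ => Finset.analyticAt_fun_sum _ fun k _ => ?_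
  refine analyticAt_const.mul (AnalyticAt.fun_inv (by fun_prop) ?_)
  exact pow_ne_zero _ (sub_ne_zero.2 (hv β hβ))

lemma pp_mer (v : ℂ) : MeromorphicAt (pp Z μ N d) v := by
  unfold pp
  fun_prop

/-- the principal part at a point -/
lemma local_pp (p : ℂ) (N : ℕ) : ∀ {g : ℂ → ℂ}, AnalyticAt ℂ g p →
    ∃ (a : ℕ → ℂ) (h : ℂ → ℂ), AnalyticAt ℂ h p ∧ ∀ᶠ z in 𝓝[≠] p,
      g z * ((z - p) ^ N)⁻¹ = h z + ∑ k ∈ Finset.range N, a k * ((z - p) ^ (k + 1))⁻¹ := by
  induction N with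
  | zero =>
    intro g hg
    exact ⟨0, g, hg, by simp⟩
  | succ N ih =>
    intro g hg
    have hg1 : AnalyticAt ℂ (dslope g p) p := by
      obtain ⟨q, hq⟩ := hg
      exact ⟨_, hq.has_fpower_series_dslope_fslope⟩
    obtain ⟨a, h, h1, h2⟩ := ih hg1
    refine ⟨fun k => if k = N then g p else a k, h, h1, ?_⟩
    filter_upwards [h2, self_mem_nhdsWithin] with z hz hne
    have hne1 : z - p ≠ 0 := sub_ne_zero.2 hne
    have e1 : g z = g p + (z - p) * dslope g p z := by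
      have := sub_smul_dslope g p z
      rw [smul_eq_mul] at this
      rw [this]
      ring
    rw [Finset.sum_range_succ, if_pos rfl]
    have e2 : ∑ k ∈ Finset.range N, (if k = N then g p else a k) * ((z - p) ^ (k + 1))⁻¹ =
        ∑ k ∈ Finset.range N, a k * ((z - p) ^ (k + 1))⁻¹ := by
      refine Finset.sum_congr rfl fun k hk => ?_
      rw [if_neg (Finset.mem_range.1 hk).ne]
    rw [e2, ← add_assoc, ← hz, e1]
    field_simp
    ring

end Pool.Agent.V1167.GL
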